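import Pool.Agent.Q201.AR.Def3

set_option autoImplicit false

/-!
Project AR, part 3: statements. Definitions and the lemmas `Sat_cz … Sat_cand`, `code_ind` are in
`Pool.Agent.Q201.AR.Def3`. Oracle library: `Pool.Agent.Helper578.JD` (`REIn` closure lemmas in
`Oracle.lean`).
-/

open FirstOrder FirstOrder.Language Pool.Agent.Helper227.EN

namespace Q201.AR

open Pool.Agent.Helper578.JD Pool.Agent.Helper578.JD.Oracle

/-- JOB KL (arithmetical König lemma). Use `S_ARCL`.

Proof. For a finite string `σ : List Bool` let `Bad σ` say that some `K` with `F K` has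
`σ[q.1]? = some q.2` for all `q ∈ K`; `Bad` is arithmetical (bounded quantifiers over lists are
quantifiers with a computable matrix). `D` avoids `F` iff no initial segment of `D` is bad (`K` is
finite). Let `Ext σ` say: for every `N` some `τ` of length `N + σ.length` extends `σ` and is not
bad (initial segments of non-bad strings are non-bad, so the non-bad strings form a tree). By
compactness (König: one of the two one-bit extensions of `σ` has `Ext`) `Ext σ` implies
`Ext (σ ++ [false])` or `Ext (σ ++ [true])`. `Ext []` holds because of `D₀`. Leftmost path: `D n` is false iff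
`Ext` holds for (the string of the first `n` values) `++ [false]`. `D n = b` iff some string `σ` of length
`n + 1` satisfies `σ[n] = b` and for every `i ≤ n`: `σ[i] = false ↔ Ext (σ.take i ++ [false])`. So the graph of
`D` is arithmetical. All initial segments of `D` have `Ext`, so they are not bad. -/
def S_KL : Prop :=
  S_ARCL → ∀ F : List (ℕ × Bool) → Prop, Arith F → (∃ D₀ : ℕ → Bool, Avoids F D₀) →
    ∃ D : ℕ → Bool, Avoids F D ∧ Arith fun n => D n = true

/-- JOB CPT (computability of the syntactic functions). Proof: `List.range`, `List.map`,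
`List.getD`, `Encodable.encode`, `Nat.pair` are primitive recursive (`Primrec.list_map`,
`Primrec.list_range`, `Primrec.list_getD`, `Primrec.encode`, `Primrec₂.natPair`);
`numc` is a primitive recursion with the step function
`a ↦ cex 1 (cex 2 (cand (co 2) (cand (cad 1 2 0) (cex 0 (cand (ceq 0 1) a)))))`. -/
def S_CPT : Prop :=
  (Computable fun q : List ℕ × ℕ => nm q.1 q.2) ∧
  (Computable fun q : List ℕ × ℕ × ℕ => upd q.1 q.2.1 q.2.2) ∧
  (Computable fun q : ℕ × List ℕ => pos q.1 q.2) ∧
  (Computable fun q : ℕ × List ℕ => hw q.1 q.2) ∧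
  (Computable fun q : ℕ × List ℕ => can q.1 q.2) ∧ Computable numc ∧
  (Computable fun q : ℕ × ℕ => cnor q.1 q.2) ∧ (Computable fun q : ℕ × ℕ => cex q.1 q.2)

/-- JOB FAR (the forbidden assignments are arithmetical). Use `S_ARCL`, `S_CPT`.

Proof. `Fb Ax K` is a finite disjunction over the constructors of statements
`∃ parameters, (guard) ∧ K = computable function of the parameters`; the guards are computable or
`Ax c`. Use the closure properties `S_ARCL` (disjunction by De Morgan). -/
def S_FAR : Prop :=
  S_ARCL → S_CPT → ∀ Ax : ℕ → Prop, Arith Ax → Arith (Fb Ax)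

/-- JOB DM (the diagram of a model with Henkin names).

Proof. Names `g : ℕ → M` by strong recursion: `g 0 = ξ`; for `n = q + 1`, `q = pos c l`
(`Denumerable`, every `q` has this form): if `c = cex i a` and some `x` satisfies
`Sat M a (Function.update (fun j => g (nm l j)) i x)`, let `g n` be such an `x`; otherwise `g n = ξ`. All
entries of `l` are `< n` (an entry of a list is smaller than the code of the list, which is at
most `pos c l`; compare `Pool.Agent.H623R3.JC.mem_lt_cod`), and `nm l j = 0 < n` beyond the end. Put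
`D₀ (pos c l) = decide (Sat M c (fun j => g (nm l j)))`. Since
`(fun j => g (nm (upd l i x) j)) = Function.update (fun j => g (nm l j)) i (g x)`, all constructors of `Fb`
are avoided (for `nst`: `nm [0] j = 0` for all `j`, so the assignment is constant `ξ`). -/
def S_DM : Prop :=
  ∀ (Ax : ℕ → Prop) (M : Type) [LA.Structure M] (ξ : M),
    (∀ c, Ax c → ∀ e : ℕ → M, Sat M c e) → (∀ n, ¬ Sat M (numc n) fun _ => ξ) →
    ∃ D₀ : ℕ → Bool, Avoids (Fb Ax) D₀

/-- JOB QUOT (the structure described by a Henkin diagram).

Proof. `E x y := D (pos (ceq 0 1) [x, y]) = true` is an equivalence relation (`refl`; symmetry and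
transitivity from `leib2` with `c = ceq 0 1`) and a congruence for the canonical atomic statements
(`leib1`, `leib2`, `leib3` with `c = cz 0, co 0, clt 0 1, cad 0 1 2, cml 0 1 2`). `N` is the quotient, `g` the
quotient map. `0` is the class of a name `x` with `D (pos (cz 0) [x])` (`tz`, `ex1`; unique by `uz`), similarly
`1`; the sum of the classes of `x`, `y` is the class of some `z` with `D (pos (cad 0 1 2) [x, y, z])` (`ta`, `ex1`,
`upd [x, y] 2 w = [x, y, w]`; unique by `ua`), similarly products; `<` by `D (pos (clt 0 1) [x, y])`. Truth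
lemma by `code_ind`: atomic codes by `atom` (for both values of `b`:
`D (pos c l) = D (pos (can c l).1 (can c l).2)`), `cnor` by `nor1, nor2, nor3`, `cex` by `ex1, ex2` and
surjectivity of `g`. -/
def S_QUOT : Prop :=
  ∀ (Ax : ℕ → Prop) (D : ℕ → Bool), Avoids (Fb Ax) D →
    ∃ (N : Type) (_ : LA.Structure N) (g : ℕ → N), Describes D N g

/-- JOB REIDX (representatives). Use `S_ARCL`, `S_ENUM`, `S_CPT`.

Proof. `V x := ∀ y < x, g y ≠ g x`, and `g y = g x ↔ D (pos (ceq 0 1) [y, x]) = true`
(`Describes` for the code `ceq 0 1`), so `V` is arithmetical; it contains exactly one name of every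
element, so it is infinite. `S_ENUM` in the oracle `Oj n` for which `V` is decidable. -/
def S_REIDX : Prop :=
  S_ARCL → S_ENUM → S_CPT → ∀ (D : ℕ → Bool) (N : Type) [LA.Structure N] [Infinite N] (g : ℕ → N),
    Describes D N g → (Arith fun n => D n = true) →
    ∃ h : ℕ → ℕ, (Function.Bijective fun n => g (h n)) ∧ Arith fun q : ℕ × ℕ => h q.1 = q.2

/-- JOB TRN (transport to `ℕ`). Use `S_ARCL`, `S_CPT`.

Proof. Let `θ n = g (h n)`; `a` is the structure on `ℕ` for which `θ` is an isomorphism. For a function
symbol, e.g. `+`: `a`-value of `(n, m)` is `k` iff `∃ x y z, h n = x ∧ h m = y ∧ h k = z ∧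
D (pos (cad 0 1 2) [x, y, z]) = true`; similarly for the other symbols (case distinction on the symbol).
Closure properties `S_ARCL`. -/
def S_TRN : Prop :=
  S_ARCL → S_CPT → ∀ (D : ℕ → Bool) (N : Type) [LA.Structure N] (g : ℕ → N) (h : ℕ → ℕ),
    Describes D N g → (Arith fun n => D n = true) → (Function.Bijective fun n => g (h n)) →
    (Arith fun q : ℕ × ℕ => h q.1 = q.2) →
    ∃ a : LA.Structure ℕ, Nonempty (@FirstOrder.Language.Equiv LA ℕ N a _) ∧
      (∀ (n : ℕ) (f : LA.Functions n), Arith fun v : Fin (n + 1) → ℕ =>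
        @Structure.funMap LA ℕ a n f (fun i => v i.castSucc) = v (Fin.last n)) ∧
      ∀ (n : ℕ) (R : LA.Relations n), Arith fun v : Fin n → ℕ => @Structure.RelMap LA ℕ a n R v

/-- JOB ISOSAT. Proof: `code_ind`, generalising `e`. -/
def S_ISOSAT : Prop :=
  ∀ (M N : Type) (sM : LA.Structure M) (sN : LA.Structure N)
    (θ : @FirstOrder.Language.Equiv LA M N sM sN) (c : ℕ) (e : ℕ → M),
    @Sat N sN c (fun i => θ (e i)) ↔ @Sat M sM c e

/-- JOB COMPILE (every Mathlib formula has a code).

Proof. Bounded formulas `φ : LA.BoundedFormula (Fin n) m` with code `c` such that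
`Sat M c e ↔ φ.Realize (fun i => e i) (fun j => e (n + j))`, by induction on `φ`: the quantifier
`all` binds the variable `n + m` (`¬ ∃ x_(n+m), ¬ …`; `Function.update e (n + m) x` agrees with `e` below
`n + m`). Terms `t` with variables in `Fin n ⊕ Fin m`: for every `k ≥ n + m` there is a code `c` with
`Sat M c e ↔ t.realize … = e k` (induction on `t`, for `t = t₁ + t₂`:
`∃ x_(k+1), ∃ x_(k+2), (t₁ = x_(k+1)) ∧ (t₂ = x_(k+2)) ∧ x_(k+1) + x_(k+2) = x_k`, where the induction
hypothesis is used for `k + 1` and `k + 2`). -/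
def S_COMPILE : Prop :=
  ∀ (n : ℕ) (φ : LA.Formula (Fin n)), ∃ c : ℕ, ∀ (M : Type) [LA.Structure M] (e : ℕ → M),
    Sat M c e ↔ φ.Realize fun i : Fin n => e i

/-- JOB DECOMP (every code is a Mathlib formula). Proof: `code_ind`; for `cex i a` relabel the
variable `i` and use `Formula.iExs (Fin 1)` (see `Df.ex` in `Pool.Agent.Q201.Dfn`). -/
def S_DECOMP : Prop :=
  ∀ c : ℕ, ∃ φ : LA.Formula ℕ, ∀ (M : Type) [LA.Structure M] (e : ℕ → M),
    φ.Realize e ↔ Sat M c e

/-- JOB VARB (the variables of a code are at most the code). Proof: `code_ind`; all variables of an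
atomic code and both components of `cnor`, `cex` are at most the code
(`Nat.left_le_pair`, `Nat.right_le_pair`). -/
def S_VARB : Prop :=
  ∀ (c : ℕ) (M : Type) [LA.Structure M] (e e' : ℕ → M), (∀ i, i ≤ c → e i = e' i) →
    (Sat M c e ↔ Sat M c e')

/-- the code of the induction axiom for `c` and the variable `x_i` -/
def cind (c i : ℕ) : ℕ :=
  cneg (cand (cex i (cand (cz i) c))
    (cand (cneg (cex i (cand c (cneg (cex (c + i + 2) (cand (co (c + i + 2))
      (cex (c + i + 1) (cand (cad i (c + i + 2) (c + i + 1))
        (cex i (cand (ceq i (c + i + 1)) c)))))))))) (cex i (cneg c))))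

/-- JOB IND (meaning of the code of induction). Use `S_VARB`.

Proof. `Sat_cneg`, `Sat_cand`, `Sat_cex` and the atomic lemmas; `Function.update` of the variables
`c + i + 1`, `c + i + 2 > c` does not matter for `c` (`S_VARB`). -/
def S_IND : Prop :=
  S_VARB → ∀ (c i : ℕ) (M : Type) [LA.Structure M] (e : ℕ → M),
    Sat M (cind c i) e ↔
      (Sat M c (Function.update e i (Structure.funMap (L := LA) AF.zero ![])) →
        (∀ x, Sat M c (Function.update e i x) → Sat M c (Function.update e i
          (Structure.funMap (L := LA) AF.add ![x, Structure.funMap (L := LA) AF.one ![] ]))) →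
        ∀ x, Sat M c (Function.update e i x))

/-- JOB PAAX (`PA` by codes). Use `S_COMPILE`, `S_DECOMP`, `S_VARB`, `S_IND`, `S_ARCL`.

Proof. `Ax₀` consists of codes (`S_COMPILE` with `n = 0`; a sentence is a formula with variables in
`Empty`, relabel) of the finitely many axioms of `PAminus` and of all `cind c i`; it is arithmetical
(finite set, and `∃ c i, x = cind c i` with `cind` computable). By `realize_indAx`
(`Pool.Agent.Helper227.EN.Lang`) the induction axioms of `PA` say: induction for every
`φ : LA.BoundedFormula (Empty ⊕ Fin n) 1` and parameters. If all `cind c i` are valid in `M`, take for `c` the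
code (`S_COMPILE`) of `φ` with the variables `y` renamed to `0, …, n - 1` and the bound variable renamed to
`n`. Conversely every `Sat M c` is given by a formula with finitely many variables
(`S_DECOMP`, `S_VARB`), so the induction axioms give `cind c i`. -/
def S_PAAX : Prop :=
  S_COMPILE → S_DECOMP → S_VARB → S_IND → S_ARCL →
    ∃ Ax₀ : ℕ → Prop, Arith Ax₀ ∧ ∀ (M : Type) [LA.Structure M] [Nonempty M],
      (∀ c, Ax₀ c → ∀ e : ℕ → M, Sat M c e) ↔ M ⊨ PA

/-- JOB INF. Proof: `exists_alg` in `Pool.Agent.Helper227.EN.Alg`: a strictly ordered semiring is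
infinite (`Nat.cast` is injective). -/
def S_INF : Prop := ∀ (M : Type) [LA.Structure M] [Nonempty M], M ⊨ PA → Infinite M

/-- JOB NUM (numerals in the standard model). Proof: induction on `n`. -/
def S_NUM : Prop := ∀ n m : ℕ, @Sat ℕ stdStr (numc n) (fun _ => m) ↔ m = n

/-- JOB NS (a nonstandard elementary extension of the standard model). Use `S_DECOMP`, `S_NUM`.


Proof. The ultrapower of `ℕ` (`stdStr`) by `Filter.hyperfilter ℕ` and Łoś's theorem
(`FirstOrder.Language.Ultraproduct.realize_formula_cast`), transferred to codes by `S_DECOMP`; `ξ` is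
the class of the identity. (Every assignment into the ultrapower is represented by a sequence of
assignments.) `Sat ℕ (numc n) (fun _ => m)` holds only for `m = n`, which is not in the
ultrafilter. -/
def S_NS : Prop :=
  S_DECOMP → S_NUM → ∃ (M : Type) (_ : LA.Structure M) (ξ : M),
    (∀ c : ℕ, (∀ e : ℕ → ℕ, @Sat ℕ stdStr c e) → ∀ e : ℕ → M, Sat M c e) ∧
      ∀ n, ¬ Sat M (numc n) fun _ => ξ

/-- Codes of bounded formulas: atomic codes, `¬ a ∧ ¬ b`, bounded quantification
`∃ x_i, x_i < x_j ∧ a` (`i ≠ j`) and quantification over a value,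
`∃ x_k, x_i + x_j = x_k ∧ a`, `∃ x_k, x_i · x_j = x_k ∧ a` (`k ≠ i, j`), `∃ x_k, 0 = x_k ∧ a`,
`∃ x_k, 1 = x_k ∧ a`. -/
inductive B0 : ℕ → Prop
  | atom (c : ℕ) (h : c % 8 < 6) : B0 c
  | nor (a b : ℕ) : B0 a → B0 b → B0 (cnor a b)
  | bex (i j a : ℕ) (h : i ≠ j) : B0 a → B0 (cex i (cand (clt i j) a))
  | fad (i j k a : ℕ) (h1 : k ≠ i) (h2 : k ≠ j) : B0 a → B0 (cex k (cand (cad i j k) a))
  | fml (i j k a : ℕ) (h1 : k ≠ i) (h2 : k ≠ j) : B0 a → B0 (cex k (cand (cml i j k) a))
  | fz (k a : ℕ) : B0 a → B0 (cex k (cand (cz k) a))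
  | fo (k a : ℕ) : B0 a → B0 (cex k (cand (co k) a))

/-- JOB B0A. Use `S_ARCL`. Proof: `B0 c` iff some list `L` of codes contains `c` and every
member `x` of `L` is atomic or of one of the other forms with all its parts (`a`, `b`) members of
`L` (the proof by strong induction: the parts are smaller). This is `∃ L` of a computable (or
arithmetical, by bounded quantifiers over members and over `a, b, i, j, k ≤ x`) condition. -/
def S_B0A : Prop := S_ARCL → Arith B0

/-- JOB B0T (truth of bounded codes in the standard model). Use `S_ARCL`, `S_CPT`.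

Proof. Tables: finite lists `T` of triples `(c, l, b)` (code, list of names = numbers, truth value) such
that every entry is locally correct: atomic `c`: `b` is the truth value in `ℕ` under `nm l`
(computable); `c = cnor a a'`: `(a, l, b₁)` and `(a', l, b₂)` are in `T` for some `b₁, b₂` with
`b = (!b₁ && !b₂)`; `c = cex i (cand (clt i j) a)`, `i ≠ j`: for every `x < nm l j` some
`(a, upd l i x, b_x)` is in `T`, and `b = true` iff some `b_x = true`;
`c = cex k (cand (cad i j k) a)`, `k ≠ i, j`: `(a, upd l k (nm l i + nm l j), b)` is in `T`, and similarly for the other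
forms. (1) In a locally correct table all entries `(c, l, b)` satisfy `b = true ↔ Sat ℕ c (nm l)` (strong
induction on `c`, for all `l`). (2) If `B0 c` then for every `l` there is a locally correct table with an
entry `(c, l, b)` (induction on `B0`; the union of locally correct tables is locally correct).
So for `B0 c`: `Sat ℕ c (nm l)` iff some locally correct table contains `(c, l, true)`. This is
arithmetical in `(c, l)` by `S_ARCL` and `S_CPT`. -/
def S_B0T : Prop :=
  S_ARCL → S_CPT → ∃ P : ℕ × List ℕ → Prop, Arith P ∧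
    ∀ c l, B0 c → (P (c, l) ↔ @Sat ℕ stdStr c (nm l))

/-- The codes of level `m`: level `0` is `B0`; level `m + 1` consists of the blocks of existential
quantifiers in front of negations of codes of level `m`. -/
def Lv : ℕ → ℕ → Prop
  | 0, c => B0 c
  | m + 1, c => ∃ (is : List ℕ) (c' : ℕ), Lv m c' ∧ c = is.foldr cex (cneg c')

/-- JOB LVA. Use `S_ARCL`, `S_B0A`, `S_CPT`. Proof: induction on `m`; `is.foldr cex (cneg c')` is
computable in `(is, c')`. -/
def S_LVA : Prop := S_ARCL → S_B0A → S_CPT → ∀ m, Arith (Lv m)

/-- JOB LVT (truth of the codes of level `m` in the standard model). Use `S_ARCL`, `S_CPT`, `S_B0T`,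
`S_LVA`'s conclusion.

Proof. Induction on `m`. `Sat ℕ (is.foldr cex (cneg c')) (nm l)` iff some list `xs` of numbers of the same
length as `is` satisfies `¬ Sat ℕ c' (nm l')`, where `l'` is obtained from `l` by the updates
`upd · i x` for the pairs `(i, x)` of `is.zip xs` (`List.foldl`, from the left), because
`nm (upd l i x) = Function.update (nm l) i x`. So put `P' (c, l) := ∃ is c' xs, Lv m c' ∧
c = is.foldr cex (cneg c') ∧ xs.length = is.length ∧ ¬ P (c', l')`. -/
def S_LVT : Prop :=
  S_ARCL → S_CPT → S_B0T → (∀ m, Arith (Lv m)) → ∀ m, ∃ P : ℕ × List ℕ → Prop, Arith P ∧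
    ∀ c l, Lv m c → (P (c, l) ↔ @Sat ℕ stdStr c (nm l))

/-- JOB CD (codes of `Δ_0` formulas).

Proof. Induction on `IsDelta0`. Terms: for a term `t : Trm n`, every `k ≥ n` and every code `a` with
`B0 a` there is a code `c` with `B0 c` and `Sat M c e ↔ Sat M a (e')` where `e'` is `e` with `x_k` replaced by the
value of `t` and possibly some variables `> k` changed; it is simplest to prove by induction on `t`:
for all `k ≥ n` and all `a` with `B0 a` such that `Sat M a` does not depend on the variables `> k` (for
all `M`), some `c` with `B0 c`, also not depending on the variables `≥ k`, satisfies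
`Sat M c e ↔ Sat M a (Function.update e k (t.realize (Sum.elim default (fun i => e i))))`. (Variable
`x_i`: `∃ x_(k+1), 0 = x_(k+1) ∧ ∃ x_k, x_i + x_(k+1) = x_k ∧ a`, or use
`S_VARB`-free renaming; `t₁ + t₂`: values of `t₁`, `t₂` in `x_(k+1)`, `x_(k+2)` and then
`∃ x_k, x_(k+1) + x_(k+2) = x_k ∧ a`; here one works in structures `M` with `M ⊨ PAminus`, where
`x + 0 = x`.) `s = t`: values in `x_n`, `x_(n+1)`, then `x_n = x_(n+1)`. Bounded quantifier `∀ x_n < t, φ`: value of `t` in
`x_(n+1)`, then `¬ ∃ x_n, x_n < x_(n+1) ∧ ¬ φ`. -/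
def S_CD : Prop :=
  ∀ (n : ℕ) (φ : Fml n), IsDelta0 φ → ∃ c : ℕ, B0 c ∧ ∀ (M : Type) [LA.Structure M] [Nonempty M],
    M ⊨ PAminus → ∀ e : ℕ → M, Sat M c e ↔ φ.Realize default fun i : Fin n => e i

/-- JOB CP (codes of `Π_k` and `Σ_k` formulas). Use `S_CD`.

Proof. Induction on `IsHier`. `k = 0`: `S_CD`, and for the second part the code `cneg c` (which is
`B0`). A `Σ_{k+1}` formula: block of `∃` (the quantifier `ex` of `Fml n` binds the variable `n`) in front of
`ψ` in `Π_k`, `ψ` has the code `cneg c'` with `Lv k c'`; take `is.foldr cex (cneg c')`. A `Π_{k+1}` formula: block of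
`∀` in front of `ψ` in `Σ_k` with code `c'`, `Lv k c'`; the code `c = is.foldr cex (cneg c')` is the negation.
(State the induction so that `ex`, `all` prepend the variable `n` to the list `is`.) -/
def S_CP : Prop :=
  S_CD → ∀ (k n : ℕ) (φ : Fml n),
    (IsHier k true φ → ∃ c : ℕ, Lv k c ∧ ∀ (M : Type) [LA.Structure M] [Nonempty M],
      M ⊨ PAminus → ∀ e : ℕ → M, Sat M c e ↔ φ.Realize default fun i : Fin n => e i) ∧
    (IsHier k false φ → ∃ c : ℕ, Lv k c ∧ ∀ (M : Type) [LA.Structure M] [Nonempty M],
      M ⊨ PAminus → ∀ e : ℕ → M, Sat M (cneg c) e ↔ φ.Realize default fun i : Fin n => e i)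

/-- JOB STDPA (the standard model is a model of `PA`). Proof: the axioms of `PAminus` by computation;
induction by `realize_indAx`. (Perhaps already in the starting files, search `stdStr`.) -/
def S_STDPA : Prop := @Theory.Model LA ℕ stdStr PA

end Q201.AR
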