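import Pool.Agent.Q201.AR.Stm3

set_option autoImplicit false

open FirstOrder FirstOrder.Language Pool.Agent.Helper227.EN

namespace Q201.AR

section
variable {α : Type} [Primcodable α]

theorem g8 {f : α → ℕ} (n : ℕ) (hf : Primrec f) : Primrec fun a => 8 * f a + n :=
  Primrec.nat_add.comp (Primrec.nat_mul.comp (Primrec.const 8) hf) (Primrec.const n)

theorem g_cz {f : α → ℕ} (hf : Primrec f) : Primrec fun a => cz (f a) := g8 0 hf

theorem g_co {f : α → ℕ} (hf : Primrec f) : Primrec fun a => co (f a) := g8 1 hf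

theorem g_nor {f g : α → ℕ} (hf : Primrec f) (hg : Primrec g) :
    Primrec fun a => cnor (f a) (g a) := g8 6 (Primrec₂.natPair.comp hf hg)

theorem g_ex {f g : α → ℕ} (hf : Primrec f) (hg : Primrec g) :
    Primrec fun a => cex (f a) (g a) := g8 7 (Primrec₂.natPair.comp hf hg)

theorem g_neg {f : α → ℕ} (hf : Primrec f) : Primrec fun a => cneg (f a) := g_nor hf hf

theorem g_and {f g : α → ℕ} (hf : Primrec f) (hg : Primrec g) :
    Primrec fun a => cand (f a) (g a) := g_nor (g_neg hf) (g_neg hg)

theorem g_nm {f : α → List ℕ} {g : α → ℕ} (hf : Primrec f) (hg : Primrec g) :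
    Primrec fun a => nm (f a) (g a) := (Primrec.list_getD 0).comp hf hg

theorem g_unp1 {f : α → ℕ} (hf : Primrec f) : Primrec fun a => (f a).unpair.1 :=
  Primrec.fst.comp (Primrec.unpair.comp hf)

theorem g_unp2 {f : α → ℕ} (hf : Primrec f) : Primrec fun a => (f a).unpair.2 :=
  Primrec.snd.comp (Primrec.unpair.comp hf)

end

theorem t_CPT : S_CPT := by
  refine ⟨?_, ?_, ?_, ?_, ?_, ?_, ?_, ?_⟩
  · exact (g_nm Primrec.fst Primrec.snd).to_comp
  · refine Primrec.to_comp ?_
    unfold upd
    refine Primrec.list_map (Primrec.list_range.comp (Primrec.nat_max.comp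
      (Primrec.list_length.comp Primrec.fst)
      (Primrec.succ.comp (Primrec.fst.comp Primrec.snd)))) ?_
    refine Primrec.ite (Primrec.eq.comp Primrec.snd
      (Primrec.fst.comp (Primrec.snd.comp Primrec.fst)))
      (Primrec.snd.comp (Primrec.snd.comp Primrec.fst)) ?_
    exact g_nm (Primrec.fst.comp Primrec.fst) Primrec.snd
  · exact Computable.encode
  · exact (Primrec.succ.comp (Primrec.encode (α := ℕ × List ℕ))).to_comp
  · refine Primrec.to_comp ?_
    have hc : Primrec fun q : ℕ × List ℕ => q.1 := Primrec.fst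
    have hl : Primrec fun q : ℕ × List ℕ => q.2 := Primrec.snd
    have hm : Primrec fun q : ℕ × List ℕ => q.1 % 8 := Primrec.nat_mod.comp hc (Primrec.const 8)
    have hd : Primrec fun q : ℕ × List ℕ => q.1 / 8 := Primrec.nat_div.comp hc (Primrec.const 8)
    have hn0 : Primrec fun q : ℕ × List ℕ => nm q.2 (q.1 / 8) := g_nm hl hd
    have hn1 : Primrec fun q : ℕ × List ℕ => nm q.2 (q.1 / 8).unpair.1 := g_nm hl (g_unp1 hd)
    have hn2 : Primrec fun q : ℕ × List ℕ => nm q.2 (q.1 / 8).unpair.2 := g_nm hl (g_unp2 hd)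
    have hn3 : Primrec fun q : ℕ × List ℕ => nm q.2 (q.1 / 8).unpair.2.unpair.1 :=
      g_nm hl (g_unp1 (g_unp2 hd))
    have hn4 : Primrec fun q : ℕ × List ℕ => nm q.2 (q.1 / 8).unpair.2.unpair.2 :=
      g_nm hl (g_unp2 (g_unp2 hd))
    have hnil : Primrec fun _ : ℕ × List ℕ => ([] : List ℕ) := Primrec.const []
    have e : ∀ k, PrimrecPred fun q : ℕ × List ℕ => q.1 % 8 = k := fun k =>
      Primrec.eq.comp hm (Primrec.const k)
    unfold can
    refine Primrec.ite (e 0) (Primrec.pair (Primrec.const _) (Primrec.list_cons.comp hn0 hnil)) ?_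
    refine Primrec.ite (e 1) (Primrec.pair (Primrec.const _) (Primrec.list_cons.comp hn0 hnil)) ?_
    refine Primrec.ite (e 2) (Primrec.pair (Primrec.const _)
      (Primrec.list_cons.comp hn1 (Primrec.list_cons.comp hn2 hnil))) ?_
    refine Primrec.ite (e 3) (Primrec.pair (Primrec.const _)
      (Primrec.list_cons.comp hn1 (Primrec.list_cons.comp hn2 hnil))) ?_
    refine Primrec.ite (e 4) (Primrec.pair (Primrec.const _)
      (Primrec.list_cons.comp hn1 (Primrec.list_cons.comp hn3
        (Primrec.list_cons.comp hn4 hnil)))) ?_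
    exact Primrec.pair (Primrec.const _)
      (Primrec.list_cons.comp hn1 (Primrec.list_cons.comp hn3
        (Primrec.list_cons.comp hn4 hnil)))
  · refine Primrec.to_comp ?_
    have hstep : Primrec₂ fun (_ : ℕ) (a : ℕ) =>
        cex 1 (cex 2 (cand (co 2) (cand (cad 1 2 0) (cex 0 (cand (ceq 0 1) a))))) := by
      have h1 : Primrec fun q : ℕ × ℕ => cex 1 (cex 2 (cand (co 2) (cand (cad 1 2 0)
          (cex 0 (cand (ceq 0 1) q.2))))) :=
        g_ex (Primrec.const 1) (g_ex (Primrec.const 2) (g_and (Primrec.const _)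
          (g_and (Primrec.const _) (g_ex (Primrec.const 0) (g_and (Primrec.const _)
            Primrec.snd)))))
      exact h1
    refine (Primrec.nat_rec₁ (cz 0) hstep).of_eq fun n => ?_
    induction n with
    | zero => rfl
    | succ n ih => rw [numc, ← ih]
  · exact (g_nor Primrec.fst Primrec.snd).to_comp
  · exact (g_ex Primrec.fst Primrec.snd).to_comp

end Q201.AR
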