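import Mathlib
import Pool.Agent.Q201.AR.Stm3

/-!
# Project AR, part 3, job DM: the diagram of a model with Henkin names
-/

set_option autoImplicit false

open FirstOrder FirstOrder.Language Pool.Agent.Helper227.EN

namespace Q201.AR.DMc

open Q201.AR

lemma dm_mem_le (l : List ℕ) (a : ℕ) (h : a ∈ l) : a ≤ Encodable.encode l := by
  induction l with
  | nil => simp at h
  | cons b l ih =>
    rw [Encodable.encode_list_cons]
    have h1 := Nat.left_le_pair (Encodable.encode b) (Encodable.encode l)
    have h2 := Nat.right_le_pair (Encodable.encode b) (Encodable.encode l)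
    have h3 : Encodable.encode b = b := rfl
    rcases List.mem_cons.1 h with h | h
    · omega
    · have := ih h
      omega

lemma dm_nm_le (c : ℕ) (l : List ℕ) (j : ℕ) : nm l j < pos c l + 1 := by
  unfold nm pos
  rw [Encodable.encode_prod_val]
  have h1 := Nat.right_le_pair (Encodable.encode c) (Encodable.encode l)
  by_cases hj : j < l.length
  · rw [List.getD_eq_getElem _ _ hj]
    have := dm_mem_le l l[j] (List.getElem_mem hj)
    omega
  · rw [List.getD_eq_default _ _ (by omega)]
    omega

lemma dm_nm_upd (l : List ℕ) (i x j : ℕ) : nm (upd l i x) j = if j = i then x else nm l j := by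
  unfold upd
  by_cases hj : j < max l.length (i + 1)
  · unfold nm
    rw [List.getD_eq_getElem _ _ (by simpa using hj)]
    simp
  · have h1 : l.length ≤ j := by omega
    have h2 : j ≠ i := by omega
    rw [if_neg h2]
    unfold nm
    rw [List.getD_eq_default _ _ (by simpa using hj), List.getD_eq_default _ _ h1]

section
variable (M : Type) [LA.Structure M] (ξ : M)

open Classical in
/-- the witness for the formula `∃ x_i, a` and the assignment `e` -/
noncomputable def dmch (e : ℕ → M) (i a : ℕ) : M :=
  if h : ∃ x, Sat M a (Function.update e i x) then h.choose else ξ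

/-- the witness for the formula `c` and the assignment `e` -/
noncomputable def dmst (e : ℕ → M) (c : ℕ) : M := dmch M ξ e (c / 8).unpair.1 (c / 8).unpair.2

lemma dmst_spec (e : ℕ → M) (i a : ℕ) (h : ∃ x, Sat M a (Function.update e i x)) :
    Sat M a (Function.update e i (dmst M ξ e (cex i a))) := by
  have h8 : cex i a / 8 = Nat.pair i a := by unfold cex; omega
  have key : dmst M ξ e (cex i a) = h.choose := by
    unfold dmst
    rw [h8, Nat.unpair_pair]
    unfold dmch
    rw [dif_pos h]
  rw [key]
  exact h.choose_spec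

/-- the names -/
noncomputable def dmg : ℕ → M
  | 0 => ξ
  | q + 1 => dmst M ξ (fun j => if _h : nm (Denumerable.ofNat (ℕ × List ℕ) q).2 j < q + 1 then
        dmg (nm (Denumerable.ofNat (ℕ × List ℕ) q).2 j) else ξ)
        (Denumerable.ofNat (ℕ × List ℕ) q).1
termination_by n => n
decreasing_by exact _h

lemma dmg_zero : dmg M ξ 0 = ξ := by
  rw [dmg]

lemma dm_ofNat (c : ℕ) (l : List ℕ) : Denumerable.ofNat (ℕ × List ℕ) (pos c l) = (c, l) := by
  unfold pos
  exact Denumerable.ofNat_encode _

lemma dmg_hw (i a : ℕ) (l : List ℕ)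
    (h : ∃ x, Sat M a (Function.update (fun j => dmg M ξ (nm l j)) i x)) :
    Sat M a (Function.update (fun j => dmg M ξ (nm l j)) i (dmg M ξ (hw (cex i a) l))) := by
  have he : (fun j => if _h : nm l j < pos (cex i a) l + 1 then dmg M ξ (nm l j) else ξ) =
      fun j => dmg M ξ (nm l j) := by
    funext j
    rw [dif_pos (dm_nm_le _ l j)]
  have key : dmg M ξ (hw (cex i a) l) =
      dmst M ξ (fun j => dmg M ξ (nm l j)) (cex i a) := by
    unfold hw
    rw [dmg, dm_ofNat]
    simp only [he]
  rw [key]
  exact dmst_spec M ξ _ i a h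

open Classical in
/-- the diagram -/
noncomputable def dmD (q : ℕ) : Bool :=
  decide (Sat M (Denumerable.ofNat (ℕ × List ℕ) q).1
    fun j => dmg M ξ (nm (Denumerable.ofNat (ℕ × List ℕ) q).2 j))

lemma dmD_true (c : ℕ) (l : List ℕ) :
    dmD M ξ (pos c l) = true ↔ Sat M c fun j => dmg M ξ (nm l j) := by
  simp only [dmD, decide_eq_true_eq, dm_ofNat]

lemma dmD_false (c : ℕ) (l : List ℕ) :
    dmD M ξ (pos c l) = false ↔ ¬ Sat M c fun j => dmg M ξ (nm l j) := by
  simp only [dmD, decide_eq_false_iff_not, dm_ofNat]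

lemma dm_upd (l : List ℕ) (i x : ℕ) : (fun j => dmg M ξ (nm (upd l i x) j)) =
    Function.update (fun j => dmg M ξ (nm l j)) i (dmg M ξ x) := by
  funext j
  rw [dm_nm_upd, Function.update_apply]
  split_ifs <;> rfl

lemma dm_l1 (x x' : ℕ) (h : dmg M ξ x = dmg M ξ x') :
    (fun j => dmg M ξ (nm [x] j)) = fun j => dmg M ξ (nm [x'] j) := by
  funext j
  rcases j with _ | j
  · exact h
  · simp [nm]

lemma dm_l2 (x x' y y' : ℕ) (h : dmg M ξ x = dmg M ξ x') (h2 : dmg M ξ y = dmg M ξ y') :
    (fun j => dmg M ξ (nm [x, y] j)) = fun j => dmg M ξ (nm [x', y'] j) := by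
  funext j
  rcases j with _ | _ | j
  · exact h
  · exact h2
  · simp [nm]

lemma dm_l3 (x x' y y' z z' : ℕ) (h : dmg M ξ x = dmg M ξ x') (h2 : dmg M ξ y = dmg M ξ y')
    (h3 : dmg M ξ z = dmg M ξ z') :
    (fun j => dmg M ξ (nm [x, y, z] j)) = fun j => dmg M ξ (nm [x', y', z'] j) := by
  funext j
  rcases j with _ | _ | _ | j
  · exact h
  · exact h2
  · exact h3
  · simp [nm]

lemma dm_eq (x y : ℕ) : Sat M (ceq 0 1) (fun j => dmg M ξ (nm [x, y] j)) ↔
    dmg M ξ x = dmg M ξ y := by
  rw [Sat_ceq]
  simp [nm]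

lemma dm_atom (c : ℕ) (l : List ℕ) (h : c % 8 < 6) :
    (Sat M c fun j => dmg M ξ (nm l j)) ↔
      Sat M (can c l).1 fun j => dmg M ξ (nm (can c l).2 j) := by
  have hp : Nat.pair (c / 8).unpair.1 (c / 8).unpair.2 = c / 8 := Nat.pair_unpair _
  have hp2 : Nat.pair (c / 8).unpair.2.unpair.1 (c / 8).unpair.2.unpair.2 = (c / 8).unpair.2 :=
    Nat.pair_unpair _
  unfold can
  rcases (by omega : c % 8 = 0 ∨ c % 8 = 1 ∨ c % 8 = 2 ∨ c % 8 = 3 ∨ c % 8 = 4 ∨ c % 8 = 5)
    with h | h | h | h | h | h
  · rw [if_pos h]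
    have hc : c = cz (c / 8) := by unfold cz; omega
    conv_lhs => rw [hc]
    simp only [Sat_cz]
    simp [nm]
  · rw [if_neg (by omega), if_pos h]
    have hc : c = co (c / 8) := by unfold co; omega
    conv_lhs => rw [hc]
    simp only [Sat_co]
    simp [nm]
  · rw [if_neg (by omega), if_neg (by omega), if_pos h]
    have hc : c = ceq (c / 8).unpair.1 (c / 8).unpair.2 := by unfold ceq; rw [hp]; omega
    conv_lhs => rw [hc]
    simp only [Sat_ceq]
    simp [nm]
  · rw [if_neg (by omega), if_neg (by omega), if_neg (by omega), if_pos h]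
    have hc : c = clt (c / 8).unpair.1 (c / 8).unpair.2 := by unfold clt; rw [hp]; omega
    conv_lhs => rw [hc]
    simp only [Sat_clt]
    simp [nm]
  · rw [if_neg (by omega), if_neg (by omega), if_neg (by omega), if_neg (by omega), if_pos h]
    have hc : c = cad (c / 8).unpair.1 (c / 8).unpair.2.unpair.1 (c / 8).unpair.2.unpair.2 := by
      unfold cad; rw [hp2, hp]; omega
    conv_lhs => rw [hc]
    simp only [Sat_cad]
    simp [nm]
  · rw [if_neg (by omega), if_neg (by omega), if_neg (by omega), if_neg (by omega),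
      if_neg (by omega)]
    have hc : c = cml (c / 8).unpair.1 (c / 8).unpair.2.unpair.1 (c / 8).unpair.2.unpair.2 := by
      unfold cml; rw [hp2, hp]; omega
    conv_lhs => rw [hc]
    simp only [Sat_cml]
    simp [nm]

end

theorem t_DM : S_DM := by
  intro Ax M _ ξ hAx hξ
  refine ⟨dmD M ξ, fun K hK => ?_⟩
  by_contra hcon
  push Not at hcon
  induction hK with
  | nor1 a b l =>
    simp only [List.mem_cons, List.not_mem_nil, or_false, forall_eq_or_imp, forall_eq, dmD_true,
      Sat_cnor] at hcon
    tauto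
  | nor2 a b l =>
    simp only [List.mem_cons, List.not_mem_nil, or_false, forall_eq_or_imp, forall_eq, dmD_true,
      Sat_cnor] at hcon
    tauto
  | nor3 a b l =>
    simp only [List.mem_cons, List.not_mem_nil, or_false, forall_eq_or_imp, forall_eq,
      dmD_false, Sat_cnor] at hcon
    tauto
  | ex1 i a l =>
    simp only [List.mem_cons, List.not_mem_nil, or_false, forall_eq_or_imp, forall_eq, dmD_true,
      dmD_false, Sat_cex, dm_upd] at hcon
    exact hcon.2 (dmg_hw M ξ i a l hcon.1)
  | ex2 i a l x =>
    simp only [List.mem_cons, List.not_mem_nil, or_false, forall_eq_or_imp, forall_eq, dmD_true,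
      dmD_false, Sat_cex, dm_upd] at hcon
    exact hcon.1 ⟨_, hcon.2⟩
  | atom c l b h =>
    simp only [List.mem_cons, List.not_mem_nil, or_false, forall_eq_or_imp, forall_eq] at hcon
    have := dm_atom M ξ c l h
    cases b with
    | false =>
      simp only [dmD_true, dmD_false, Bool.not_false] at hcon
      tauto
    | true =>
      simp only [dmD_true, dmD_false, Bool.not_true] at hcon
      tauto
  | ax c l h =>
    simp only [List.mem_cons, List.not_mem_nil, or_false, forall_eq, dmD_false] at hcon
    exact hcon (hAx c h _)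
  | nst n =>
    simp only [List.mem_cons, List.not_mem_nil, or_false, forall_eq, dmD_true] at hcon
    refine hξ n ?_
    convert hcon using 2 with j
    rcases j with _ | j
    · simp [nm, dmg_zero]
    · simp [nm, dmg_zero]
  | refl x =>
    simp only [List.mem_cons, List.not_mem_nil, or_false, forall_eq, dmD_false, dm_eq] at hcon
    exact hcon trivial
  | leib1 c x x' h =>
    simp only [List.mem_cons, List.not_mem_nil, or_false, forall_eq_or_imp, forall_eq, dmD_true,
      dmD_false, dm_eq] at hcon
    obtain ⟨h1, h2, h3⟩ := hcon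
    rw [dm_l1 M ξ x x' h3] at h1
    exact h2 h1
  | leib2 c x x' y y' h =>
    simp only [List.mem_cons, List.not_mem_nil, or_false, forall_eq_or_imp, forall_eq, dmD_true,
      dmD_false, dm_eq] at hcon
    obtain ⟨h1, h2, h3, h4⟩ := hcon
    rw [dm_l2 M ξ x x' y y' h3 h4] at h1
    exact h2 h1
  | leib3 c x x' y y' z z' h =>
    simp only [List.mem_cons, List.not_mem_nil, or_false, forall_eq_or_imp, forall_eq, dmD_true,
      dmD_false, dm_eq] at hcon
    obtain ⟨h1, h2, h3, h4, h5⟩ := hcon
    rw [dm_l3 M ξ x x' y y' z z' h3 h4 h5] at h1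
    exact h2 h1
  | uz x y =>
    simp only [List.mem_cons, List.not_mem_nil, or_false, forall_eq_or_imp, forall_eq, dmD_true,
      dmD_false, dm_eq, Sat_cz] at hcon
    obtain ⟨h1, h2, h3⟩ := hcon
    exact h3 (h1.symm.trans h2)
  | uo x y =>
    simp only [List.mem_cons, List.not_mem_nil, or_false, forall_eq_or_imp, forall_eq, dmD_true,
      dmD_false, dm_eq, Sat_co] at hcon
    obtain ⟨h1, h2, h3⟩ := hcon
    exact h3 (h1.symm.trans h2)
  | ua x y z z' =>
    simp only [List.mem_cons, List.not_mem_nil, or_false, forall_eq_or_imp, forall_eq, dmD_true,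
      dmD_false, dm_eq, Sat_cad] at hcon
    obtain ⟨h1, h2, h3⟩ := hcon
    exact h3 (h1.symm.trans h2)
  | um x y z z' =>
    simp only [List.mem_cons, List.not_mem_nil, or_false, forall_eq_or_imp, forall_eq, dmD_true,
      dmD_false, dm_eq, Sat_cml] at hcon
    obtain ⟨h1, h2, h3⟩ := hcon
    exact h3 (h1.symm.trans h2)
  | tz =>
    simp only [List.mem_cons, List.not_mem_nil, or_false, forall_eq, dmD_false, Sat_cex,
      Sat_cz] at hcon
    exact hcon ⟨_, by rw [Function.update_self]⟩
  | ta x y =>
    simp only [List.mem_cons, List.not_mem_nil, or_false, forall_eq, dmD_false, Sat_cex,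
      Sat_cad] at hcon
    exact hcon ⟨_, by rw [Function.update_self, Function.update_of_ne (by norm_num),
      Function.update_of_ne (by norm_num)]⟩
  | tm x y =>
    simp only [List.mem_cons, List.not_mem_nil, or_false, forall_eq, dmD_false, Sat_cex,
      Sat_cml] at hcon
    exact hcon ⟨_, by rw [Function.update_self, Function.update_of_ne (by norm_num),
      Function.update_of_ne (by norm_num)]⟩
  | _ =>
    simp only [List.mem_cons, List.not_mem_nil, or_false, forall_eq, dmD_false, Sat_cex,
      Sat_co] at hcon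
    exact hcon ⟨_, by rw [Function.update_self]⟩

end Q201.AR.DMc
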