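import Mathlib
import Pool.Agent.Helper227.EN.Lang

set_option autoImplicit false

/-!
Project AR (MP_f714b8_lc): computable nonstandard presentations of theories of arithmetic in a
finite relational signature can be turned into presentations in one binary relation symbol.
Definitions.
-/

open FirstOrder FirstOrder.Language Pool.Agent.Helper227.EN

namespace Q201.AR

/-- The finite relational signature with `r` relation symbols, the `j`-th one of arity `ar j`. -/
abbrev Sig {r : ℕ} (ar : Fin r → ℕ) : FirstOrder.Language.{0, 0} :=
  ⟨fun _ => Empty, fun n => {j : Fin r // ar j = n}⟩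

/-- Explicit definitions of the symbols of `L'` by formulas of `L` (for a function symbol: a
formula for the graph, the last variable is the value). -/
structure Defs (L L' : FirstOrder.Language.{0, 0}) where
  /-- the formula for the graph of a function symbol -/
  fn : ∀ {n : ℕ}, L'.Functions n → L.Formula (Fin (n + 1))
  /-- the formula for a relation symbol -/
  rel : ∀ {n : ℕ}, L'.Relations n → L.Formula (Fin n)

/-- The sequence `v` followed by `y`. -/
def app {M : Type} {n : ℕ} (v : Fin n → M) (y : M) : Fin (n + 1) → M :=
  Fin.snoc (α := fun _ => M) v y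

/-- The `L'`-structure on `M` is the one which `d` defines in the `L`-structure on `M`. -/
structure Defs.Holds {L L' : FirstOrder.Language.{0, 0}} (d : Defs L L') (M : Type) [L.Structure M]
    [L'.Structure M] : Prop where
  fn : ∀ {n : ℕ} (f : L'.Functions n) (v : Fin n → M) (y : M),
    (d.fn f).Realize (app v y) ↔ Structure.funMap f v = y
  rel : ∀ {n : ℕ} (R : L'.Relations n) (v : Fin n → M),
    (d.rel R).Realize v ↔ Structure.RelMap R v

/-- The formulas of `d` for the function symbols define functions in all models of `T`. -/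
def Defs.Over {L L' : FirstOrder.Language.{0, 0}} (d : Defs L L') (T : L.Theory) : Prop :=
  ∀ (M : Type) [L.Structure M] [Nonempty M], M ⊨ T →
    ∀ {n : ℕ} (f : L'.Functions n) (v : Fin n → M), ∃! y, (d.fn f).Realize (app v y)

/-- `T` and `T'` are definitionally equivalent by means of the explicit definitions `d` of the
symbols of `L'` in `T` and `d'` of the symbols of `L` in `T'`: the theories `T + d` and `T' + d'`
in the signature `L ∪ L'` have the same models. -/
def DefEq {L L' : FirstOrder.Language.{0, 0}} (T : L.Theory) (T' : L'.Theory) (d : Defs L L')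
    (d' : Defs L' L) : Prop :=
  d.Over T ∧ d'.Over T' ∧ ∀ (M : Type) [L.Structure M] [L'.Structure M] [Nonempty M],
    (M ⊨ T ∧ d.Holds M) ↔ (M ⊨ T' ∧ d'.Holds M)

/-- The structure `s` (with domain `ℕ`) is computable: all its relations are computable. -/
def IsComputable {r : ℕ} {ar : Fin r → ℕ} (s : (Sig ar).Structure ℕ) : Prop :=
  ∀ j : Fin r, ComputablePred fun v : Fin (ar j) → ℕ =>
    @Structure.RelMap (Sig ar) ℕ s (ar j) ⟨j, rfl⟩ v

/-- Some theory `T` in the signature `ar` is definitionally equivalent to the theory `T₀` of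
arithmetic and has a computable nonstandard model: a computable structure on `ℕ` which is a model
of `T` and in which the definitions of the arithmetical operations give a structure (a model of
`T₀`) not isomorphic to the standard model. -/
def Presentable (T₀ : LA.Theory) {r : ℕ} (ar : Fin r → ℕ) : Prop :=
  ∃ (T : (Sig ar).Theory) (d : Defs LA (Sig ar)) (d' : Defs (Sig ar) LA), DefEq T₀ T d d' ∧
    ∃ (s : (Sig ar).Structure ℕ) (a : LA.Structure ℕ),
      @Theory.Model (Sig ar) ℕ s T ∧ IsComputable s ∧ @Defs.Holds (Sig ar) LA d' ℕ s a ∧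
        ¬ Nonempty (@FirstOrder.Language.Equiv LA ℕ ℕ a stdStr)

/-! ### The coding -/

/-- `ι` and `code i` (`i < c`) are injective with disjoint ranges which cover `M`: the set `M` is
identified with `M ⊔ {0, …, c - 1} × M ^ k`. -/
structure Good {M : Type} (k c : ℕ) (ι : M → M) (code : ℕ → (Fin k → M) → M) : Prop where
  inj : Function.Injective ι
  cinj : ∀ i i' t t', i < c → i' < c → code i t = code i' t' → i = i' ∧ t = t'
  disj : ∀ i t a, i < c → ι a ≠ code i t
  surj : ∀ x, (∃ a, x = ι a) ∨ ∃ i, i < c ∧ ∃ t, x = code i t

/-- The coded binary relation. Every tuple `t : M ^ k` has the chain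
`code 0 t → code 1 t → ⋯ → code (k + r - 1) t`; the `l`-th element of the chain is related to the
copy `ι (t l)` of the `l`-th coordinate (`l < k`; for `l ≥ k` to the copy of the last coordinate);
the element `code (k + j) t` is related to itself if and only if `S j t`. -/
def RR {M : Type} (k r : ℕ) (S : Fin r → (Fin k → M) → Prop) (ι : M → M)
    (code : ℕ → (Fin k → M) → M) (x y : M) : Prop :=
  (∃ (i : ℕ) (t : Fin k → M), i + 1 < k + r ∧ x = code i t ∧ y = code (i + 1) t) ∨
  (∃ (i : ℕ) (t : Fin k → M) (l : Fin k), i < k + r ∧ (l : ℕ) = min i (k - 1) ∧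
    x = code i t ∧ y = ι (t l)) ∨
  (∃ (j : Fin r) (t : Fin k → M), S j t ∧ x = code (k + j) t ∧ y = x)

/-- The signature with one binary relation symbol. -/
abbrev LR : FirstOrder.Language.{0, 0} := Sig (fun _ : Fin 1 => 2)

/-- the relation of an `LR`-structure -/
def rr {M : Type} [LR.Structure M] (x y : M) : Prop :=
  Structure.RelMap (L := LR) (n := 2) ⟨0, rfl⟩ ![x, y]

/-- `p`, `s`, `z`: a bijective pairing function, an injective function onto the complement of `{z}`,
with the formulas `π`, `σ`, `ζ` defining them. -/
structure PSZ {L : FirstOrder.Language.{0, 0}} (π : L.Formula (Fin 3)) (σ : L.Formula (Fin 2))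
    (ζ : L.Formula (Fin 1)) (M : Type) [L.Structure M] (p : M → M → M) (s : M → M) (z : M) :
    Prop where
  pbij : Function.Bijective fun q : M × M => p q.1 q.2
  sinj : Function.Injective s
  srange : ∀ x, x ≠ z ↔ ∃ y, s y = x
  hπ : ∀ v : Fin 3 → M, π.Realize v ↔ p (v 0) (v 1) = v 2
  hσ : ∀ v : Fin 2 → M, σ.Realize v ↔ s (v 0) = v 1
  hζ : ∀ v : Fin 1 → M, ζ.Realize v ↔ v 0 = z

end Q201.AR
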