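import Pool.Agent.Q201.AR.Stm
import Pool.Agent.Helper578.JD.Core

set_option autoImplicit false

/-!
Project AR, part 2: from arithmetical to computable presentations (Marker extensions).
Definitions.
-/

open FirstOrder FirstOrder.Language Pool.Agent.Helper227.EN

namespace Q201.AR

open Pool.Agent.Helper578.JD Pool.Agent.Helper578.JD.Oracle

/-- `P` is decidable in the oracle `A`. -/
def Dec {α : Type} [Primcodable α] (A : Set ℕ) (P : α → Prop) : Prop :=
  REIn A P ∧ REIn A fun a => ¬ P a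

/-- `P` is co-enumerable in the oracle `A`. -/
def Co {α : Type} [Primcodable α] (A : Set ℕ) (P : α → Prop) : Prop := REIn A fun a => ¬ P a

/-- The `n`-th jump of the empty set. -/
def Oj (n : ℕ) : Set ℕ := jump^[n] ∅

/-- `P` is arithmetical. -/
def Arith {α : Type} [Primcodable α] (P : α → Prop) : Prop := ∃ n, Dec (Oj n) P

/-- A class of relations on `ℕ` (of all finite arities) which contains the computable relations and
is closed under computable substitution, conjunction and disjunction. -/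
structure KC (K : ∀ n : ℕ, ((Fin n → ℕ) → Prop) → Prop) : Prop where
  comp : ∀ (m n : ℕ) (f : (Fin m → ℕ) → Fin n → ℕ) (P : (Fin n → ℕ) → Prop), Computable f →
    K n P → K m fun v => P (f v)
  dec : ∀ (n : ℕ) (P : (Fin n → ℕ) → Prop), ComputablePred P → K n P
  and : ∀ (n : ℕ) (P Q : (Fin n → ℕ) → Prop), K n P → K n Q → K n fun v => P v ∧ Q v
  or : ∀ (n : ℕ) (P Q : (Fin n → ℕ) → Prop), K n P → K n Q → K n fun v => P v ∨ Q v

/-- Like `Presentable`, with relations in the class `K` in place of computable relations. -/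
def PresIn (K : ∀ n : ℕ, ((Fin n → ℕ) → Prop) → Prop) (T₀ : LA.Theory) {r : ℕ} (ar : Fin r → ℕ) :
    Prop :=
  ∃ (T : (Sig ar).Theory) (d : Defs LA (Sig ar)) (d' : Defs (Sig ar) LA), DefEq T₀ T d d' ∧
    ∃ (s : (Sig ar).Structure ℕ) (a : LA.Structure ℕ),
      @Theory.Model (Sig ar) ℕ s T ∧
      (∀ j : Fin r, K (ar j) fun v : Fin (ar j) → ℕ =>
        @Structure.RelMap (Sig ar) ℕ s (ar j) ⟨j, rfl⟩ v) ∧
      @Defs.Holds (Sig ar) LA d' ℕ s a ∧
        ¬ Nonempty (@FirstOrder.Language.Equiv LA ℕ ℕ a stdStr)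

/-- The theory `T₀` has a nonstandard model with universe `ℕ` whose atomic diagram is
arithmetical. -/
def HasArithModel (T₀ : LA.Theory) : Prop :=
  ∃ a : LA.Structure ℕ, @Theory.Model LA ℕ a T₀ ∧
    (∀ (n : ℕ) (f : LA.Functions n), Arith fun v : Fin (n + 1) → ℕ =>
      @Structure.funMap LA ℕ a n f (fun i => v i.castSucc) = v (Fin.last n)) ∧
    (∀ (n : ℕ) (R : LA.Relations n), Arith fun v : Fin n → ℕ => @Structure.RelMap LA ℕ a n R v) ∧
    ¬ Nonempty (@FirstOrder.Language.Equiv LA ℕ ℕ a stdStr)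

/-! ### The Marker extension of a binary relation -/

/-- `ι`, `κ` and `ν` (on the pairs outside `R`) are injective with disjoint ranges which cover `M`:
the set `M` is identified with `M ⊔ M ⊔ (M × M \ R)`. -/
structure Good3 {M : Type} (R : M → M → Prop) (ι κ : M → M) (ν : M → M → M) : Prop where
  iinj : Function.Injective ι
  kinj : Function.Injective κ
  ninj : ∀ a b a' b', ¬ R a b → ¬ R a' b' → ν a b = ν a' b' → a = a' ∧ b = b'
  ik : ∀ a b, ι a ≠ κ b
  iN : ∀ a b c, ¬ R b c → ι a ≠ ν b c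
  kN : ∀ a b c, ¬ R b c → κ a ≠ ν b c
  surj : ∀ x, (∃ a, x = ι a) ∨ (∃ a, x = κ a) ∨ ∃ a b, ¬ R a b ∧ x = ν a b

/-- the copy of `M` -/
def U3 {M : Type} (ι : M → M) (x : M) : Prop := ∃ a, x = ι a

/-- `κ a` is related to `ι a` -/
def K3 {M : Type} (ι κ : M → M) (x y : M) : Prop := ∃ a, x = κ a ∧ y = ι a

/-- `ν a b` is related to `ι a`, `ι b` -/
def N3 {M : Type} (R : M → M → Prop) (ι : M → M) (ν : M → M → M) (x y z : M) : Prop :=
  ∃ a b, ¬ R a b ∧ x = ν a b ∧ y = ι a ∧ z = ι b

/-- the arities of the three relations -/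
abbrev ar3 : Fin 3 → ℕ := ![1, 2, 3]

/-- the relations of a structure in the signature `ar3` -/
def r1 {M : Type} [(Sig ar3).Structure M] (x : M) : Prop :=
  Structure.RelMap (L := Sig ar3) (n := 1) ⟨0, rfl⟩ ![x]

/-- the relations of a structure in the signature `ar3` -/
def r2 {M : Type} [(Sig ar3).Structure M] (x y : M) : Prop :=
  Structure.RelMap (L := Sig ar3) (n := 2) ⟨1, rfl⟩ ![x, y]

/-- the relations of a structure in the signature `ar3` -/
def r3 {M : Type} [(Sig ar3).Structure M] (x y z : M) : Prop :=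
  Structure.RelMap (L := Sig ar3) (n := 3) ⟨2, rfl⟩ ![x, y, z]

/-- `M` has a good coding of `R` and the relations of the structure in the signature `ar3` are the
coded relations. -/
structure Coded3 (M : Type) [(Sig ar3).Structure M] (R : M → M → Prop) (ι κ : M → M)
    (ν : M → M → M) : Prop where
  good : Good3 R ι κ ν
  h1 : ∀ x : M, r1 x ↔ U3 ι x
  h2 : ∀ x y : M, r2 x y ↔ K3 ι κ x y
  h3 : ∀ x y z : M, r3 x y z ↔ N3 R ι ν x y z

end Q201.AR
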