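import Pool.Agent.Q201.AR.Stm2

set_option autoImplicit false

/-!
Project AR, part 3: arithmetical nonstandard models of `PA` and the true `Π_n` sentences.
Definitions and basic lemmas on codes of formulas.
-/

open FirstOrder FirstOrder.Language Pool.Agent.Helper227.EN

namespace Q201.AR

open Pool.Agent.Helper578.JD Pool.Agent.Helper578.JD.Oracle

/-! ### Codes of formulas (named variables) -/

/-- code of `0 = x_i` -/
def cz (i : ℕ) : ℕ := 8 * i
/-- code of `1 = x_i` -/
def co (i : ℕ) : ℕ := 8 * i + 1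
/-- code of `x_i = x_j` -/
def ceq (i j : ℕ) : ℕ := 8 * Nat.pair i j + 2
/-- code of `x_i < x_j` -/
def clt (i j : ℕ) : ℕ := 8 * Nat.pair i j + 3
/-- code of `x_i + x_j = x_k` -/
def cad (i j k : ℕ) : ℕ := 8 * Nat.pair i (Nat.pair j k) + 4
/-- code of `x_i · x_j = x_k` -/
def cml (i j k : ℕ) : ℕ := 8 * Nat.pair i (Nat.pair j k) + 5
/-- code of `¬ a ∧ ¬ b` -/
def cnor (a b : ℕ) : ℕ := 8 * Nat.pair a b + 6
/-- code of `∃ x_i, a` -/
def cex (i a : ℕ) : ℕ := 8 * Nat.pair i a + 7
/-- code of `¬ a` -/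
def cneg (a : ℕ) : ℕ := cnor a a
/-- code of `a ∧ b` -/
def cand (a b : ℕ) : ℕ := cnor (cneg a) (cneg b)

/-- Satisfaction of the formula coded by `c` under the assignment `e`. -/
def Sat (M : Type) [LA.Structure M] (c : ℕ) (e : ℕ → M) : Prop :=
  if c % 8 = 0 then Structure.funMap (L := LA) AF.zero ![] = e (c / 8)
  else if c % 8 = 1 then Structure.funMap (L := LA) AF.one ![] = e (c / 8)
  else if c % 8 = 2 then e (c / 8).unpair.1 = e (c / 8).unpair.2
  else if c % 8 = 3 then Structure.RelMap (L := LA) AR.lt ![e (c / 8).unpair.1, e (c / 8).unpair.2]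
  else if c % 8 = 4 then Structure.funMap (L := LA) AF.add
    ![e (c / 8).unpair.1, e (c / 8).unpair.2.unpair.1] = e (c / 8).unpair.2.unpair.2
  else if c % 8 = 5 then Structure.funMap (L := LA) AF.mul
    ![e (c / 8).unpair.1, e (c / 8).unpair.2.unpair.1] = e (c / 8).unpair.2.unpair.2
  else if c % 8 = 6 then ¬ Sat M (c / 8).unpair.1 e ∧ ¬ Sat M (c / 8).unpair.2 e
  else ∃ x : M, Sat M (c / 8).unpair.2 (Function.update e (c / 8).unpair.1 x)
termination_by c
decreasing_by
  · have := Nat.unpair_left_le (c / 8); omega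
  · have := Nat.unpair_right_le (c / 8); omega
  · have := Nat.unpair_right_le (c / 8); omega

section
variable {M : Type} [LA.Structure M] (e : ℕ → M)

theorem Sat_cz (i : ℕ) : Sat M (cz i) e ↔ Structure.funMap (L := LA) AF.zero ![] = e i := by
  rw [Sat, if_pos (by unfold cz; omega), show cz i / 8 = i by unfold cz; omega]

theorem Sat_co (i : ℕ) : Sat M (co i) e ↔ Structure.funMap (L := LA) AF.one ![] = e i := by
  rw [Sat, if_neg (by unfold co; omega), if_pos (by unfold co; omega),
    show co i / 8 = i by unfold co; omega]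

theorem Sat_ceq (i j : ℕ) : Sat M (ceq i j) e ↔ e i = e j := by
  rw [Sat, if_neg (by unfold ceq; omega), if_neg (by unfold ceq; omega),
    if_pos (by unfold ceq; omega), show ceq i j / 8 = Nat.pair i j by unfold ceq; omega]
  simp only [Nat.unpair_pair]

theorem Sat_clt (i j : ℕ) :
    Sat M (clt i j) e ↔ Structure.RelMap (L := LA) AR.lt ![e i, e j] := by
  rw [Sat, if_neg (by unfold clt; omega), if_neg (by unfold clt; omega),
    if_neg (by unfold clt; omega), if_pos (by unfold clt; omega),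
    show clt i j / 8 = Nat.pair i j by unfold clt; omega]
  simp only [Nat.unpair_pair]

theorem Sat_cad (i j k : ℕ) :
    Sat M (cad i j k) e ↔ Structure.funMap (L := LA) AF.add ![e i, e j] = e k := by
  rw [Sat, if_neg (by unfold cad; omega), if_neg (by unfold cad; omega),
    if_neg (by unfold cad; omega), if_neg (by unfold cad; omega), if_pos (by unfold cad; omega),
    show cad i j k / 8 = Nat.pair i (Nat.pair j k) by unfold cad; omega]
  simp only [Nat.unpair_pair]

theorem Sat_cml (i j k : ℕ) :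
    Sat M (cml i j k) e ↔ Structure.funMap (L := LA) AF.mul ![e i, e j] = e k := by
  rw [Sat, if_neg (by unfold cml; omega), if_neg (by unfold cml; omega),
    if_neg (by unfold cml; omega), if_neg (by unfold cml; omega), if_neg (by unfold cml; omega),
    if_pos (by unfold cml; omega),
    show cml i j k / 8 = Nat.pair i (Nat.pair j k) by unfold cml; omega]
  simp only [Nat.unpair_pair]

theorem Sat_cnor (a b : ℕ) : Sat M (cnor a b) e ↔ ¬ Sat M a e ∧ ¬ Sat M b e := by
  rw [Sat, if_neg (by unfold cnor; omega), if_neg (by unfold cnor; omega),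
    if_neg (by unfold cnor; omega), if_neg (by unfold cnor; omega),
    if_neg (by unfold cnor; omega), if_neg (by unfold cnor; omega),
    if_pos (by unfold cnor; omega), show cnor a b / 8 = Nat.pair a b by unfold cnor; omega]
  simp only [Nat.unpair_pair]

theorem Sat_cex (i a : ℕ) : Sat M (cex i a) e ↔ ∃ x : M, Sat M a (Function.update e i x) := by
  rw [Sat, if_neg (by unfold cex; omega), if_neg (by unfold cex; omega),
    if_neg (by unfold cex; omega), if_neg (by unfold cex; omega),
    if_neg (by unfold cex; omega), if_neg (by unfold cex; omega),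
    if_neg (by unfold cex; omega), show cex i a / 8 = Nat.pair i a by unfold cex; omega]
  simp only [Nat.unpair_pair]

theorem Sat_cneg (a : ℕ) : Sat M (cneg a) e ↔ ¬ Sat M a e := by
  unfold cneg
  rw [Sat_cnor]
  tauto

theorem Sat_cand (a b : ℕ) : Sat M (cand a b) e ↔ Sat M a e ∧ Sat M b e := by
  unfold cand
  rw [Sat_cnor, Sat_cneg, Sat_cneg]
  tauto

end

/-- Induction on codes: every number is the code of a formula. -/
theorem code_ind {P : ℕ → Prop} (hz : ∀ i, P (cz i)) (ho : ∀ i, P (co i))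
    (heq : ∀ i j, P (ceq i j)) (hlt : ∀ i j, P (clt i j)) (had : ∀ i j k, P (cad i j k))
    (hml : ∀ i j k, P (cml i j k)) (hnor : ∀ a b, P a → P b → P (cnor a b))
    (hex : ∀ i a, P a → P (cex i a)) (c : ℕ) : P c := by
  induction c using Nat.strong_induction_on with
  | _ c ih =>
    have h1 := Nat.unpair_left_le (c / 8)
    have h2 := Nat.unpair_right_le (c / 8)
    have hp : Nat.pair (c / 8).unpair.1 (c / 8).unpair.2 = c / 8 := Nat.pair_unpair _
    have hp2 : Nat.pair (c / 8).unpair.2.unpair.1 (c / 8).unpair.2.unpair.2 = (c / 8).unpair.2 :=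
      Nat.pair_unpair _
    have h8 : c % 8 < 8 := Nat.mod_lt _ (by norm_num)
    rcases (by omega : c % 8 = 0 ∨ c % 8 = 1 ∨ c % 8 = 2 ∨ c % 8 = 3 ∨ c % 8 = 4 ∨ c % 8 = 5 ∨
      c % 8 = 6 ∨ c % 8 = 7) with h | h | h | h | h | h | h | h
    · have : c = cz (c / 8) := by unfold cz; omega
      rw [this]; exact hz _
    · have : c = co (c / 8) := by unfold co; omega
      rw [this]; exact ho _
    · have : c = ceq (c / 8).unpair.1 (c / 8).unpair.2 := by unfold ceq; rw [hp]; omega
      rw [this]; exact heq _ _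
    · have : c = clt (c / 8).unpair.1 (c / 8).unpair.2 := by unfold clt; rw [hp]; omega
      rw [this]; exact hlt _ _
    · have : c = cad (c / 8).unpair.1 (c / 8).unpair.2.unpair.1 (c / 8).unpair.2.unpair.2 := by
        unfold cad; rw [hp2, hp]; omega
      rw [this]; exact had _ _ _
    · have : c = cml (c / 8).unpair.1 (c / 8).unpair.2.unpair.1 (c / 8).unpair.2.unpair.2 := by
        unfold cml; rw [hp2, hp]; omega
      rw [this]; exact hml _ _ _
    · have : c = cnor (c / 8).unpair.1 (c / 8).unpair.2 := by unfold cnor; rw [hp]; omega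
      rw [this]; exact hnor _ _ (ih _ (by omega)) (ih _ (by omega))
    · have : c = cex (c / 8).unpair.1 (c / 8).unpair.2 := by unfold cex; rw [hp]; omega
      rw [this]; exact hex _ _ (ih _ (by omega))

/-! ### Names and Henkin diagrams -/

/-- the `j`-th entry of `l` (`0` beyond the end) -/
def nm (l : List ℕ) (j : ℕ) : ℕ := l.getD j 0

/-- the list `l` with `i`-th entry `x` -/
def upd (l : List ℕ) (i x : ℕ) : List ℕ :=
  (List.range (max l.length (i + 1))).map fun j => if j = i then x else nm l j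

/-- the position of the pair (code, list of names) -/
def pos (c : ℕ) (l : List ℕ) : ℕ := Encodable.encode (c, l)

/-- the name of the witness for the existential formula `c` at the names `l` -/
def hw (c : ℕ) (l : List ℕ) : ℕ := pos c l + 1

/-- the canonical form of an atomic statement about names -/
def can (c : ℕ) (l : List ℕ) : ℕ × List ℕ :=
  if c % 8 = 0 then (cz 0, [nm l (c / 8)])
  else if c % 8 = 1 then (co 0, [nm l (c / 8)])
  else if c % 8 = 2 then (ceq 0 1, [nm l (c / 8).unpair.1, nm l (c / 8).unpair.2])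
  else if c % 8 = 3 then (clt 0 1, [nm l (c / 8).unpair.1, nm l (c / 8).unpair.2])
  else if c % 8 = 4 then (cad 0 1 2, [nm l (c / 8).unpair.1, nm l (c / 8).unpair.2.unpair.1,
    nm l (c / 8).unpair.2.unpair.2])
  else (cml 0 1 2, [nm l (c / 8).unpair.1, nm l (c / 8).unpair.2.unpair.1,
    nm l (c / 8).unpair.2.unpair.2])

/-- code of `x_0 = n` (the numeral `n`): `N_0` is `0 = x_0` and `N_(n+1)` is
`∃ x_1, ∃ x_2, 1 = x_2 ∧ x_1 + x_2 = x_0 ∧ ∃ x_0, x_0 = x_1 ∧ N_n` -/
def numc : ℕ → ℕ
  | 0 => cz 0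
  | n + 1 => cex 1 (cex 2 (cand (co 2) (cand (cad 1 2 0) (cex 0 (cand (ceq 0 1) (numc n))))))

/-- The forbidden finite partial assignments of truth values to positions, for the set `Ax` of codes
of axioms. -/
inductive Fb (Ax : ℕ → Prop) : List (ℕ × Bool) → Prop
  | nor1 (a b : ℕ) (l : List ℕ) : Fb Ax [(pos (cnor a b) l, true), (pos a l, true)]
  | nor2 (a b : ℕ) (l : List ℕ) : Fb Ax [(pos (cnor a b) l, true), (pos b l, true)]
  | nor3 (a b : ℕ) (l : List ℕ) :
      Fb Ax [(pos (cnor a b) l, false), (pos a l, false), (pos b l, false)]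
  | ex1 (i a : ℕ) (l : List ℕ) :
      Fb Ax [(pos (cex i a) l, true), (pos a (upd l i (hw (cex i a) l)), false)]
  | ex2 (i a : ℕ) (l : List ℕ) (x : ℕ) :
      Fb Ax [(pos (cex i a) l, false), (pos a (upd l i x), true)]
  | atom (c : ℕ) (l : List ℕ) (b : Bool) (h : c % 8 < 6) :
      Fb Ax [(pos c l, b), (pos (can c l).1 (can c l).2, !b)]
  | ax (c : ℕ) (l : List ℕ) (h : Ax c) : Fb Ax [(pos c l, false)]
  | nst (n : ℕ) : Fb Ax [(pos (numc n) [0], true)]
  | refl (x : ℕ) : Fb Ax [(pos (ceq 0 1) [x, x], false)]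
  | leib1 (c x x' : ℕ) (h : c % 8 < 6) :
      Fb Ax [(pos c [x], true), (pos c [x'], false), (pos (ceq 0 1) [x, x'], true)]
  | leib2 (c x x' y y' : ℕ) (h : c % 8 < 6) :
      Fb Ax [(pos c [x, y], true), (pos c [x', y'], false), (pos (ceq 0 1) [x, x'], true),
        (pos (ceq 0 1) [y, y'], true)]
  | leib3 (c x x' y y' z z' : ℕ) (h : c % 8 < 6) :
      Fb Ax [(pos c [x, y, z], true), (pos c [x', y', z'], false), (pos (ceq 0 1) [x, x'], true),
        (pos (ceq 0 1) [y, y'], true), (pos (ceq 0 1) [z, z'], true)]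
  | uz (x y : ℕ) : Fb Ax [(pos (cz 0) [x], true), (pos (cz 0) [y], true),
      (pos (ceq 0 1) [x, y], false)]
  | uo (x y : ℕ) : Fb Ax [(pos (co 0) [x], true), (pos (co 0) [y], true),
      (pos (ceq 0 1) [x, y], false)]
  | ua (x y z z' : ℕ) : Fb Ax [(pos (cad 0 1 2) [x, y, z], true),
      (pos (cad 0 1 2) [x, y, z'], true), (pos (ceq 0 1) [z, z'], false)]
  | um (x y z z' : ℕ) : Fb Ax [(pos (cml 0 1 2) [x, y, z], true),
      (pos (cml 0 1 2) [x, y, z'], true), (pos (ceq 0 1) [z, z'], false)]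
  | tz : Fb Ax [(pos (cex 0 (cz 0)) [], false)]
  | to : Fb Ax [(pos (cex 0 (co 0)) [], false)]
  | ta (x y : ℕ) : Fb Ax [(pos (cex 2 (cad 0 1 2)) [x, y], false)]
  | tm (x y : ℕ) : Fb Ax [(pos (cex 2 (cml 0 1 2)) [x, y], false)]

/-- The truth assignment `D` avoids all forbidden partial assignments. -/
def Avoids (F : List (ℕ × Bool) → Prop) (D : ℕ → Bool) : Prop :=
  ∀ K, F K → ∃ q ∈ K, D q.1 ≠ q.2

/-- `N` with the names `g` is the structure described by `D`. -/
def Describes (D : ℕ → Bool) (N : Type) [LA.Structure N] (g : ℕ → N) : Prop :=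
  Function.Surjective g ∧ ∀ (c : ℕ) (l : List ℕ), D (pos c l) = true ↔ Sat N c fun i => g (nm l i)

/-! ### The arithmetical hierarchy of Mathlib formulas in the signature of arithmetic -/

/-- formulas of arithmetic with free variables `x_0, …, x_{n-1}` -/
abbrev Fml (n : ℕ) : Type := LA.BoundedFormula Empty n

/-- terms of arithmetic with variables `x_0, …, x_{n-1}` -/
abbrev Trm (n : ℕ) : Type := LA.Term (Empty ⊕ Fin n)

/-- the formula `s < t` -/
def ltF {n : ℕ} (s t : Trm n) : Fml n := Relations.boundedFormula₂ (L := LA) AR.lt s t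

/-- a term in the variables `x_0, …, x_{n-1}` as a term in `x_0, …, x_n` -/
def liftT {n : ℕ} (t : Trm n) : Trm (n + 1) := t.relabel (Sum.map id Fin.castSucc)

/-- the variable `x_n` as a term in `x_0, …, x_n` -/
def lastT (n : ℕ) : Trm (n + 1) := Term.var (Sum.inr (Fin.last n))

/-- `Δ_0` formulas: atomic formulas, connectives (`⊥` and implication, which generate the others)
and bounded quantification `∀ x_n < t`, where `t` is a term in `x_0, …, x_{n-1}`. -/
inductive IsDelta0 : ∀ {n : ℕ}, Fml n → Prop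
  | falsum {n : ℕ} : IsDelta0 (⊥ : Fml n)
  | eq {n : ℕ} (s t : Trm n) : IsDelta0 (s.bdEqual t)
  | lt {n : ℕ} (s t : Trm n) : IsDelta0 (ltF s t)
  | imp {n : ℕ} {φ ψ : Fml n} : IsDelta0 φ → IsDelta0 ψ → IsDelta0 (φ.imp ψ)
  | ball {n : ℕ} (t : Trm n) {φ : Fml (n + 1)} : IsDelta0 φ →
      IsDelta0 ((ltF (lastT n) (liftT t)).imp φ).all

/-- `IsHier k true φ`: `φ` is a `Σ_k` formula; `IsHier k false φ`: `φ` is a `Π_k` formula.
`Σ_0 = Π_0 = Δ_0`; a `Σ_{k+1}` formula is a (possibly empty) block of existential quantifiers in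
front of a `Π_k` formula, and a `Π_{k+1}` formula is a block of universal quantifiers in front of a
`Σ_k` formula. -/
inductive IsHier : ℕ → Bool → ∀ {n : ℕ}, Fml n → Prop
  | zero {n : ℕ} {φ : Fml n} (b : Bool) : IsDelta0 φ → IsHier 0 b φ
  | sig {k n : ℕ} {φ : Fml n} : IsHier k false φ → IsHier (k + 1) true φ
  | ex {k n : ℕ} {φ : Fml (n + 1)} : IsHier (k + 1) true φ → IsHier (k + 1) true φ.ex
  | pi {k n : ℕ} {φ : Fml n} : IsHier k true φ → IsHier (k + 1) false φ
  | all {k n : ℕ} {φ : Fml (n + 1)} : IsHier (k + 1) false φ → IsHier (k + 1) false φ.all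

/-- `PA` together with every `Π_n` sentence true in the standard model. -/
def PAPi (n : ℕ) : LA.Theory :=
  PA ∪ {σ | IsHier n false (σ : Fml 0) ∧ @Sentence.Realize LA ℕ stdStr σ}

end Q201.AR
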