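import Pool.Agent.Q201.AR.Stm3

set_option autoImplicit false

/-!
Project AR, part 3, job FAR: the forbidden assignments are arithmetical.
-/

open FirstOrder FirstOrder.Language Pool.Agent.Helper227.EN

namespace Q201.AR.Farc

open Q201.AR

attribute [local irreducible] nm upd pos hw can numc cex cnor ceq cz co cad cml clt

abbrev LL : Type := List (ℕ × Bool)

theorem cp_of {α : Type} [Primcodable α] {P : α → Prop} (h : PrimrecPred P) :
    ComputablePred P := by
  obtain ⟨i, hi⟩ := h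
  exact ⟨i, hi.to_comp⟩

theorem ar_or (hA : S_ARCL) {α : Type} [Primcodable α] {P Q : α → Prop} (hP : Arith P)
    (hQ : Arith Q) : Arith fun a => P a ∨ Q a := by
  obtain ⟨-, -, hn, ha, -⟩ := hA
  have := hn _ _ (ha _ _ _ (hn _ _ hP) (hn _ _ hQ))
  have e : (fun a => P a ∨ Q a) = fun a => ¬ (¬ P a ∧ ¬ Q a) := by
    funext a
    exact propext (by tauto)
  rw [e]
  exact this

theorem fam (hA : S_ARCL) {α : Type} [Primcodable α] {G : α → Prop} {f : α → LL} (hG : Arith G)
    (hf : Computable f) : Arith fun K : LL => ∃ p : α, G p ∧ K = f p := by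
  obtain ⟨hcomp, hcp, hn, ha, hex⟩ := hA
  refine hex LL α (fun q => G q.2 ∧ q.1 = f q.2) (ha _ _ _ (hcomp _ _ G Prod.snd Computable.snd hG) ?_)
  have h1 : Arith fun q : LL × LL => q.1 = q.2 := hcp _ _ (cp_of Primrec.eq)
  exact hcomp (LL × α) (LL × LL) (fun q => q.1 = q.2) (fun q => (q.1, f q.2))
    (Computable.fst.pair (hf.comp Computable.snd)) h1

theorem fam' (hA : S_ARCL) {α : Type} [Primcodable α] {f : α → LL}
    (hf : Computable f) : Arith fun K : LL => ∃ p : α, K = f p := by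
  have hT : Arith fun _ : α => True := hA.2.1 _ _ (cp_of ⟨fun _ => isTrue trivial, by
    exact (Primrec.const true).of_eq fun _ => rfl⟩)
  have h1 := fam hA hT hf
  have e : (fun K : LL => ∃ p : α, K = f p) = fun K : LL => ∃ p : α, True ∧ K = f p := by
    funext K
    exact propext (by simp only [true_and])
  rw [e]
  exact h1

section
variable {α : Type} [Primcodable α]

theorem nilc : Computable fun _ : α => ([] : LL) := Computable.const []

theorem cn (hC : S_CPT) {c : α → ℕ} {l : α → List ℕ} {b : α → Bool} {r : α → LL}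
    (hc : Computable c) (hl : Computable l) (hb : Computable b) (hr : Computable r) :
    Computable fun p => (pos (c p) (l p), b p) :: r p :=
  Computable.list_cons.comp ((hC.2.2.1.comp (hc.pair hl)).pair hb) hr

theorem l1 {x : α → ℕ} (hx : Computable x) : Computable fun p => [x p] :=
  Computable.list_cons.comp hx (Computable.const [])

theorem l2 {x y : α → ℕ} (hx : Computable x) (hy : Computable y) :
    Computable fun p => [x p, y p] :=
  Computable.list_cons.comp hx (l1 hy)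

theorem l3 {x y z : α → ℕ} (hx : Computable x) (hy : Computable y) (hz : Computable z) :
    Computable fun p => [x p, y p, z p] :=
  Computable.list_cons.comp hx (l2 hy hz)

end

theorem ar_lt6 (hA : S_ARCL) {α : Type} [Primcodable α] {c : α → ℕ} (hc : Computable c) :
    Arith fun p => c p % 8 < 6 := by
  have h1 : Arith fun n : ℕ => n % 8 < 6 := hA.2.1 _ _ (cp_of
    (Primrec.nat_lt.comp (Primrec.nat_mod.comp Primrec.id (Primrec.const 8)) (Primrec.const 6)))
  exact hA.1 α ℕ _ c hc h1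

section
variable {α : Type} [Primcodable α]

theorem c_ex (hC : S_CPT) {i a : α → ℕ} (hi : Computable i) (ha : Computable a) :
    Computable fun p => cex (i p) (a p) :=
  Computable.comp (f := fun q : ℕ × ℕ => cex q.1 q.2) (g := fun p => (i p, a p))
    hC.2.2.2.2.2.2.2 (hi.pair ha)

theorem c_nor (hC : S_CPT) {i a : α → ℕ} (hi : Computable i) (ha : Computable a) :
    Computable fun p => cnor (i p) (a p) :=
  Computable.comp (f := fun q : ℕ × ℕ => cnor q.1 q.2) (g := fun p => (i p, a p))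
    hC.2.2.2.2.2.2.1 (hi.pair ha)

theorem c_hw (hC : S_CPT) {c : α → ℕ} {l : α → List ℕ} (hc : Computable c)
    (hl : Computable l) : Computable fun p => hw (c p) (l p) :=
  Computable.comp (f := fun q : ℕ × List ℕ => hw q.1 q.2) (g := fun p => (c p, l p))
    hC.2.2.2.1 (hc.pair hl)

theorem c_can (hC : S_CPT) {c : α → ℕ} {l : α → List ℕ} (hc : Computable c)
    (hl : Computable l) : Computable fun p => can (c p) (l p) :=
  Computable.comp (f := fun q : ℕ × List ℕ => can q.1 q.2) (g := fun p => (c p, l p))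
    hC.2.2.2.2.1 (hc.pair hl)

theorem c_upd (hC : S_CPT) {i x : α → ℕ} {l : α → List ℕ} (hl : Computable l)
    (hi : Computable i) (hx : Computable x) : Computable fun p => upd (l p) (i p) (x p) :=
  Computable.comp (f := fun q : List ℕ × ℕ × ℕ => upd q.1 q.2.1 q.2.2)
    (g := fun p => (l p, i p, x p)) hC.2.1 (hl.pair (hi.pair hx))

end

theorem k1 (hA : S_ARCL) (hC : S_CPT) : Arith fun K : LL => ∃ p : ℕ × ℕ × List ℕ,
    K = [(pos (cnor p.1 p.2.1) p.2.2, true), (pos p.1 p.2.2, true)] := by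
  have h1 : Computable fun p : ℕ × ℕ × List ℕ => p.1 := Computable.fst
  have s1 : Computable fun p : ℕ × ℕ × List ℕ => p.2 := Computable.snd
  have h2 : Computable fun p : ℕ × ℕ × List ℕ => p.2.1 := Computable.fst.comp s1
  have h3 : Computable fun p : ℕ × ℕ × List ℕ => p.2.2 := Computable.snd.comp s1
  exact fam' hA (cn hC (c_nor hC h1 h2) h3 (Computable.const true)
    (cn hC h1 h3 (Computable.const true) nilc))

theorem k2 (hA : S_ARCL) (hC : S_CPT) : Arith fun K : LL => ∃ p : ℕ × ℕ × List ℕ,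
    K = [(pos (cnor p.1 p.2.1) p.2.2, true), (pos p.2.1 p.2.2, true)] := by
  have h1 : Computable fun p : ℕ × ℕ × List ℕ => p.1 := Computable.fst
  have s1 : Computable fun p : ℕ × ℕ × List ℕ => p.2 := Computable.snd
  have h2 : Computable fun p : ℕ × ℕ × List ℕ => p.2.1 := Computable.fst.comp s1
  have h3 : Computable fun p : ℕ × ℕ × List ℕ => p.2.2 := Computable.snd.comp s1
  exact fam' hA (cn hC (c_nor hC h1 h2) h3 (Computable.const true)
    (cn hC h2 h3 (Computable.const true) nilc))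

theorem k3 (hA : S_ARCL) (hC : S_CPT) : Arith fun K : LL => ∃ p : ℕ × ℕ × List ℕ,
    K = [(pos (cnor p.1 p.2.1) p.2.2, false), (pos p.1 p.2.2, false),
      (pos p.2.1 p.2.2, false)] := by
  have h1 : Computable fun p : ℕ × ℕ × List ℕ => p.1 := Computable.fst
  have s1 : Computable fun p : ℕ × ℕ × List ℕ => p.2 := Computable.snd
  have h2 : Computable fun p : ℕ × ℕ × List ℕ => p.2.1 := Computable.fst.comp s1
  have h3 : Computable fun p : ℕ × ℕ × List ℕ => p.2.2 := Computable.snd.comp s1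
  exact fam' hA (cn hC (c_nor hC h1 h2) h3 (Computable.const false)
    (cn hC h1 h3 (Computable.const false) (cn hC h2 h3 (Computable.const false) nilc)))

theorem k4 (hA : S_ARCL) (hC : S_CPT) : Arith fun K : LL => ∃ p : ℕ × ℕ × List ℕ,
    K = [(pos (cex p.1 p.2.1) p.2.2, true),
      (pos p.2.1 (upd p.2.2 p.1 (hw (cex p.1 p.2.1) p.2.2)), false)] := by
  have h1 : Computable fun p : ℕ × ℕ × List ℕ => p.1 := Computable.fst
  have s1 : Computable fun p : ℕ × ℕ × List ℕ => p.2 := Computable.snd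
  have h2 : Computable fun p : ℕ × ℕ × List ℕ => p.2.1 := Computable.fst.comp s1
  have h3 : Computable fun p : ℕ × ℕ × List ℕ => p.2.2 := Computable.snd.comp s1
  exact fam' hA (cn hC (c_ex hC h1 h2) h3 (Computable.const true)
    (cn hC h2 (c_upd hC h3 h1 (c_hw hC (c_ex hC h1 h2) h3)) (Computable.const false) nilc))

theorem k5 (hA : S_ARCL) (hC : S_CPT) : Arith fun K : LL => ∃ p : ℕ × ℕ × List ℕ × ℕ,
    K = [(pos (cex p.1 p.2.1) p.2.2.1, false), (pos p.2.1 (upd p.2.2.1 p.1 p.2.2.2), true)] := by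
  have h1 : Computable fun p : ℕ × ℕ × List ℕ × ℕ => p.1 := Computable.fst
  have s1 : Computable fun p : ℕ × ℕ × List ℕ × ℕ => p.2 := Computable.snd
  have h2 : Computable fun p : ℕ × ℕ × List ℕ × ℕ => p.2.1 := Computable.fst.comp s1
  have s2 : Computable fun p : ℕ × ℕ × List ℕ × ℕ => p.2.2 := Computable.snd.comp s1
  have h3 : Computable fun p : ℕ × ℕ × List ℕ × ℕ => p.2.2.1 := Computable.fst.comp s2
  have h4 : Computable fun p : ℕ × ℕ × List ℕ × ℕ => p.2.2.2 := Computable.snd.comp s2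
  exact fam' hA (cn hC (c_ex hC h1 h2) h3 (Computable.const false)
    (cn hC h2 (c_upd hC h3 h1 h4) (Computable.const true) nilc))

theorem k6 (hA : S_ARCL) (hC : S_CPT) : Arith fun K : LL => ∃ p : ℕ × List ℕ × Bool,
    p.1 % 8 < 6 ∧
      K = [(pos p.1 p.2.1, p.2.2), (pos (can p.1 p.2.1).1 (can p.1 p.2.1).2, !p.2.2)] := by
  have h1 : Computable fun p : ℕ × List ℕ × Bool => p.1 := Computable.fst
  have s1 : Computable fun p : ℕ × List ℕ × Bool => p.2 := Computable.snd
  have h2 : Computable fun p : ℕ × List ℕ × Bool => p.2.1 := Computable.fst.comp s1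
  have h3 : Computable fun p : ℕ × List ℕ × Bool => p.2.2 := Computable.snd.comp s1
  have hc : Computable fun p : ℕ × List ℕ × Bool => can p.1 p.2.1 := c_can hC h1 h2
  have hn : Computable fun p : ℕ × List ℕ × Bool => !p.2.2 := Primrec.not.to_comp.comp h3
  exact fam hA (ar_lt6 hA h1) (cn hC h1 h2 h3
    (cn hC (Computable.fst.comp hc) (Computable.snd.comp hc) hn nilc))

theorem k7 (hA : S_ARCL) (hC : S_CPT) (Ax : ℕ → Prop) (hAx : Arith Ax) :
    Arith fun K : LL => ∃ p : ℕ × List ℕ, Ax p.1 ∧ K = [(pos p.1 p.2, false)] := by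
  have h1 : Computable fun p : ℕ × List ℕ => p.1 := Computable.fst
  have h2 : Computable fun p : ℕ × List ℕ => p.2 := Computable.snd
  have h3 : Arith fun p : ℕ × List ℕ => Ax p.1 := hA.1 (ℕ × List ℕ) ℕ Ax (fun p => p.1) h1 hAx
  exact fam hA h3 (cn hC h1 h2 (Computable.const false) nilc)

theorem t_FAR : S_FAR := by
  intro hA hC Ax hAx
  obtain ⟨cnm, cupd, cpos, chw, ccan, cnum, ccnor, ccex⟩ := id hC
  have k8 : Arith fun K : LL => ∃ p : ℕ, K = [(pos (numc p) [0], true)] :=
    fam' hA (cn hC cnum (Computable.const [0]) (Computable.const true) nilc)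
  have k9 : Arith fun K : LL => ∃ p : ℕ, K = [(pos (ceq 0 1) [p, p], false)] :=
    fam' hA (cn hC (Computable.const (ceq 0 1)) (l2 Computable.id Computable.id)
      (Computable.const false) nilc)
  have k10 : Arith fun K : LL => ∃ p : ℕ × ℕ × ℕ, p.1 % 8 < 6 ∧
      K = [(pos p.1 [p.2.1], true), (pos p.1 [p.2.2], false),
        (pos (ceq 0 1) [p.2.1, p.2.2], true)] := by
    have h1 : Computable fun p : ℕ × ℕ × ℕ => p.2.1 := Computable.fst.comp Computable.snd
    have h2 : Computable fun p : ℕ × ℕ × ℕ => p.2.2 := Computable.snd.comp Computable.snd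
    exact fam hA (ar_lt6 hA Computable.fst) (cn hC Computable.fst (l1 h1) (Computable.const true)
      (cn hC Computable.fst (l1 h2) (Computable.const false)
      (cn hC (Computable.const (ceq 0 1)) (l2 h1 h2) (Computable.const true) nilc)))
  have k11 : Arith fun K : LL => ∃ p : ℕ × ℕ × ℕ × ℕ × ℕ, p.1 % 8 < 6 ∧
      K = [(pos p.1 [p.2.1, p.2.2.2.1], true), (pos p.1 [p.2.2.1, p.2.2.2.2], false),
        (pos (ceq 0 1) [p.2.1, p.2.2.1], true), (pos (ceq 0 1) [p.2.2.2.1, p.2.2.2.2], true)] := by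
    have h1 : Computable fun p : ℕ × ℕ × ℕ × ℕ × ℕ => p.2.1 := Computable.fst.comp Computable.snd
    have h2 : Computable fun p : ℕ × ℕ × ℕ × ℕ × ℕ => p.2.2.1 :=
      Computable.fst.comp (Computable.snd.comp Computable.snd)
    have h3 : Computable fun p : ℕ × ℕ × ℕ × ℕ × ℕ => p.2.2.2.1 :=
      Computable.fst.comp (Computable.snd.comp (Computable.snd.comp Computable.snd))
    have h4 : Computable fun p : ℕ × ℕ × ℕ × ℕ × ℕ => p.2.2.2.2 :=
      Computable.snd.comp (Computable.snd.comp (Computable.snd.comp Computable.snd))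
    exact fam hA (ar_lt6 hA Computable.fst) (cn hC Computable.fst (l2 h1 h3) (Computable.const true)
      (cn hC Computable.fst (l2 h2 h4) (Computable.const false)
      (cn hC (Computable.const (ceq 0 1)) (l2 h1 h2) (Computable.const true)
      (cn hC (Computable.const (ceq 0 1)) (l2 h3 h4) (Computable.const true) nilc))))
  have k12 : Arith fun K : LL => ∃ p : ℕ × ℕ × ℕ × ℕ × ℕ × ℕ × ℕ, p.1 % 8 < 6 ∧
      K = [(pos p.1 [p.2.1, p.2.2.2.1, p.2.2.2.2.2.1], true),
        (pos p.1 [p.2.2.1, p.2.2.2.2.1, p.2.2.2.2.2.2], false),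
        (pos (ceq 0 1) [p.2.1, p.2.2.1], true), (pos (ceq 0 1) [p.2.2.2.1, p.2.2.2.2.1], true),
        (pos (ceq 0 1) [p.2.2.2.2.2.1, p.2.2.2.2.2.2], true)] := by
    have s1 : Computable fun p : ℕ × ℕ × ℕ × ℕ × ℕ × ℕ × ℕ => p.2 := Computable.snd
    have s2 : Computable fun p : ℕ × ℕ × ℕ × ℕ × ℕ × ℕ × ℕ => p.2.2 := Computable.snd.comp s1
    have s3 : Computable fun p : ℕ × ℕ × ℕ × ℕ × ℕ × ℕ × ℕ => p.2.2.2 := Computable.snd.comp s2
    have s4 : Computable fun p : ℕ × ℕ × ℕ × ℕ × ℕ × ℕ × ℕ => p.2.2.2.2 := Computable.snd.comp s3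
    have s5 : Computable fun p : ℕ × ℕ × ℕ × ℕ × ℕ × ℕ × ℕ => p.2.2.2.2.2 := Computable.snd.comp s4
    have h1 : Computable fun p : ℕ × ℕ × ℕ × ℕ × ℕ × ℕ × ℕ => p.2.1 := Computable.fst.comp s1
    have h2 : Computable fun p : ℕ × ℕ × ℕ × ℕ × ℕ × ℕ × ℕ => p.2.2.1 := Computable.fst.comp s2
    have h3 : Computable fun p : ℕ × ℕ × ℕ × ℕ × ℕ × ℕ × ℕ => p.2.2.2.1 := Computable.fst.comp s3
    have h4 : Computable fun p : ℕ × ℕ × ℕ × ℕ × ℕ × ℕ × ℕ => p.2.2.2.2.1 :=
      Computable.fst.comp s4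
    have h5 : Computable fun p : ℕ × ℕ × ℕ × ℕ × ℕ × ℕ × ℕ => p.2.2.2.2.2.1 :=
      Computable.fst.comp s5
    have h6 : Computable fun p : ℕ × ℕ × ℕ × ℕ × ℕ × ℕ × ℕ => p.2.2.2.2.2.2 :=
      Computable.snd.comp s5
    exact fam hA (ar_lt6 hA Computable.fst)
      (cn hC Computable.fst (l3 h1 h3 h5) (Computable.const true)
      (cn hC Computable.fst (l3 h2 h4 h6) (Computable.const false)
      (cn hC (Computable.const (ceq 0 1)) (l2 h1 h2) (Computable.const true)
      (cn hC (Computable.const (ceq 0 1)) (l2 h3 h4) (Computable.const true)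
      (cn hC (Computable.const (ceq 0 1)) (l2 h5 h6) (Computable.const true) nilc)))))
  have kz : ∀ c : ℕ, Arith fun K : LL => ∃ p : ℕ × ℕ,
      K = [(pos c [p.1], true), (pos c [p.2], true), (pos (ceq 0 1) [p.1, p.2], false)] :=
    fun c => fam' hA (cn hC (Computable.const c) (l1 Computable.fst) (Computable.const true)
      (cn hC (Computable.const c) (l1 Computable.snd) (Computable.const true)
      (cn hC (Computable.const (ceq 0 1)) (l2 Computable.fst Computable.snd)
        (Computable.const false) nilc)))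
  have ka : ∀ c : ℕ, Arith fun K : LL => ∃ p : ℕ × ℕ × ℕ × ℕ,
      K = [(pos c [p.1, p.2.1, p.2.2.1], true), (pos c [p.1, p.2.1, p.2.2.2], true),
        (pos (ceq 0 1) [p.2.2.1, p.2.2.2], false)] := by
    intro c
    have s1 : Computable fun p : ℕ × ℕ × ℕ × ℕ => p.2 := Computable.snd
    have s2 : Computable fun p : ℕ × ℕ × ℕ × ℕ => p.2.2 := Computable.snd.comp s1
    have h1 : Computable fun p : ℕ × ℕ × ℕ × ℕ => p.2.1 := Computable.fst.comp s1
    have h2 : Computable fun p : ℕ × ℕ × ℕ × ℕ => p.2.2.1 := Computable.fst.comp s2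
    have h3 : Computable fun p : ℕ × ℕ × ℕ × ℕ => p.2.2.2 := Computable.snd.comp s2
    exact fam' hA (cn hC (Computable.const c) (l3 Computable.fst h1 h2) (Computable.const true)
      (cn hC (Computable.const c) (l3 Computable.fst h1 h3) (Computable.const true)
      (cn hC (Computable.const (ceq 0 1)) (l2 h2 h3) (Computable.const false) nilc)))
  have k0 : ∀ c : ℕ, Arith fun K : LL => ∃ _p : Unit, K = [(pos c [], false)] :=
    fun c => fam' hA (cn hC (Computable.const c) (Computable.const []) (Computable.const false)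
      nilc)
  have kt : ∀ c : ℕ, Arith fun K : LL => ∃ p : ℕ × ℕ, K = [(pos c [p.1, p.2], false)] :=
    fun c => fam' hA (cn hC (Computable.const c) (l2 Computable.fst Computable.snd)
      (Computable.const false) nilc)
  have all := ar_or hA (k1 hA hC) (ar_or hA (k2 hA hC) (ar_or hA (k3 hA hC)
    (ar_or hA (k4 hA hC) (ar_or hA (k5 hA hC) (ar_or hA (k6 hA hC)
    (ar_or hA (k7 hA hC Ax hAx) (ar_or hA k8 (ar_or hA k9 (ar_or hA k10 (ar_or hA k11 (ar_or hA k12
    (ar_or hA (kz (cz 0)) (ar_or hA (kz (co 0)) (ar_or hA (ka (cad 0 1 2))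
    (ar_or hA (ka (cml 0 1 2)) (ar_or hA (k0 (cex 0 (cz 0))) (ar_or hA (k0 (cex 0 (co 0)))
    (ar_or hA (kt (cex 2 (cad 0 1 2))) (kt (cex 2 (cml 0 1 2)))))))))))))))))))))
  refine Eq.mp (congrArg _ ?_) all
  funext K
  apply propext
  constructor
  · rintro (⟨p, rfl⟩ | ⟨p, rfl⟩ | ⟨p, rfl⟩ | ⟨p, rfl⟩ | ⟨p, rfl⟩ | ⟨p, hp, rfl⟩ | ⟨p, hp, rfl⟩ |
      ⟨p, rfl⟩ | ⟨p, rfl⟩ | ⟨p, hp, rfl⟩ | ⟨p, hp, rfl⟩ | ⟨p, hp, rfl⟩ | ⟨p, rfl⟩ | ⟨p, rfl⟩ |
      ⟨p, rfl⟩ | ⟨p, rfl⟩ | ⟨p, rfl⟩ | ⟨p, rfl⟩ | ⟨p, rfl⟩ | ⟨p, rfl⟩)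
    · exact Fb.nor1 _ _ _
    · exact Fb.nor2 _ _ _
    · exact Fb.nor3 _ _ _
    · exact Fb.ex1 _ _ _
    · exact Fb.ex2 _ _ _ _
    · exact Fb.atom _ _ _ hp
    · exact Fb.ax _ _ hp
    · exact Fb.nst _
    · exact Fb.refl _
    · exact Fb.leib1 _ _ _ hp
    · exact Fb.leib2 _ _ _ _ _ hp
    · exact Fb.leib3 _ _ _ _ _ _ _ hp
    · exact Fb.uz _ _
    · exact Fb.uo _ _
    · exact Fb.ua _ _ _ _
    · exact Fb.um _ _ _ _
    · exact Fb.tz
    · exact Fb.to
    · exact Fb.ta _ _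
    · exact Fb.tm _ _
  · intro hK
    cases hK with
    | nor1 a b l => exact Or.inl ⟨(a, b, l), rfl⟩
    | nor2 a b l => exact Or.inr (Or.inl ⟨(a, b, l), rfl⟩)
    | nor3 a b l => exact Or.inr (Or.inr (Or.inl ⟨(a, b, l), rfl⟩))
    | ex1 i a l => exact Or.inr (Or.inr (Or.inr (Or.inl ⟨(i, a, l), rfl⟩)))
    | ex2 i a l x => exact Or.inr (Or.inr (Or.inr (Or.inr (Or.inl ⟨(i, a, l, x), rfl⟩))))
    | atom c l b h =>
      exact Or.inr (Or.inr (Or.inr (Or.inr (Or.inr (Or.inl ⟨(c, l, b), h, rfl⟩)))))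
    | ax c l h =>
      exact Or.inr (Or.inr (Or.inr (Or.inr (Or.inr (Or.inr (Or.inl ⟨(c, l), h, rfl⟩))))))
    | nst n =>
      iterate 7 right
      exact Or.inl ⟨n, rfl⟩
    | refl x =>
      iterate 8 right
      exact Or.inl ⟨x, rfl⟩
    | leib1 c x x' h =>
      iterate 9 right
      exact Or.inl ⟨(c, x, x'), h, rfl⟩
    | leib2 c x x' y y' h =>
      iterate 10 right
      exact Or.inl ⟨(c, x, x', y, y'), h, rfl⟩
    | leib3 c x x' y y' z z' h =>
      iterate 11 right
      exact Or.inl ⟨(c, x, x', y, y', z, z'), h, rfl⟩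
    | uz x y =>
      iterate 12 right
      exact Or.inl ⟨(x, y), rfl⟩
    | uo x y =>
      iterate 13 right
      exact Or.inl ⟨(x, y), rfl⟩
    | ua x y z z' =>
      iterate 14 right
      exact Or.inl ⟨(x, y, z, z'), rfl⟩
    | um x y z z' =>
      iterate 15 right
      exact Or.inl ⟨(x, y, z, z'), rfl⟩
    | tz =>
      iterate 16 right
      exact Or.inl ⟨(), rfl⟩
    | ta x y =>
      iterate 18 right
      exact Or.inl ⟨(x, y), rfl⟩
    | tm x y =>
      iterate 19 right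
      exact ⟨(x, y), rfl⟩
    | _ =>
      iterate 17 right
      exact Or.inl ⟨(), rfl⟩

end Q201.AR.Farc
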