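import Pool.Agent.Q201.AR.Def2

set_option autoImplicit false

/-!
Project AR, part 2: statements. Definitions: `Pool.Agent.Q201.AR.Def2` (and `Def`, `Stm`).
The oracle library is `Pool.Agent.Helper578.JD` (starting files): `REIn A S` (`S` is enumerable in
`A`), closure lemmas `REIn.of_re`, `REIn.comp`, `REIn.and`, `REIn.or`, `REIn.ex`, `REIn.all_lt`,
`REIn.all_mem`, `REIn.mem`, `REIn.not_mem` in `Oracle.lean`, `REIn_iff_jump`, `Red_jump`, `reMono` in
`Core.lean`, lemmas on `REPred` in `RE.lean`, `Comp.lean`.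
-/

open FirstOrder FirstOrder.Language Pool.Agent.Helper227.EN

namespace Q201.AR

open Pool.Agent.Helper578.JD Pool.Agent.Helper578.JD.Oracle

/-- JOB KDEC. `Dec A` and `Co A` are closed classes, and decidable in `∅` means computable.

Proof. `REIn.of_re`, `REIn.comp`, `REIn.and`, `REIn.or` (for complements De Morgan with
`Classical`). A relation which is enumerable in `∅`: in the definition of `REIn` the information `c`
is correct for `∅` iff its positive part is empty, so the relation is `REPred`; together with its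
complement this gives `ComputablePred` (Post's theorem, `ComputablePred.computable_iff_re_compl_re`
or similar). -/
def S_KDEC : Prop :=
  (∀ A : Set ℕ, KC (fun n P => Dec (α := Fin n → ℕ) A P)) ∧
    (∀ A : Set ℕ, KC (fun n P => Co (α := Fin n → ℕ) A P)) ∧
    ∀ (n : ℕ) (P : (Fin n → ℕ) → Prop), Dec (Oj 0) P ↔ ComputablePred P

/-- JOB COMPB (as JOB COMP, `Pool.Agent.Q91.AR.Comp`, with the dependence on `S` made explicit).

Proof. Same coding as in `S_COMP`: `ι a = (c + 1) a`, `code i t = (c + 1) (e t) + i + 1`, `c = k + r`. The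
three clauses of `RR`: the first two are a computable relation `C1` of `v` which does not depend
on `S`; the third one says: for some `j : Fin r`: `v 1 = v 0`, `v 0 % (c + 1) = k + j + 1` (computable, `C2 j`)
and `S j (e.symm (v 0 / (c + 1)))` (`f v = e.symm (v 0 / (c + 1))`). -/
def S_COMPB : Prop :=
  ∀ (k r : ℕ), 0 < k → ∃ (ι : ℕ → ℕ) (code : ℕ → (Fin k → ℕ) → ℕ)
    (C1 : (Fin 2 → ℕ) → Prop) (C2 : Fin r → (Fin 2 → ℕ) → Prop) (f : (Fin 2 → ℕ) → Fin k → ℕ),
    Good k (k + r) ι code ∧ ComputablePred C1 ∧ (∀ j, ComputablePred (C2 j)) ∧ Computable f ∧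
      ∀ (S : Fin r → (Fin k → ℕ) → Prop) (v : Fin 2 → ℕ),
        RR k r S ι code (v 0) (v 1) ↔ C1 v ∨ ∃ j, C2 j v ∧ S j (f v)

/-- JOB PADK. As `S_PAD` for every closed class: the restriction map is computable
(`Pool.Agent.Q79.AR_PAD` contains the computability of `t ↦ fun l => t (Fin.castLE h l)`), then
`KC.comp`. -/
def S_PADK : Prop :=
  ∀ (n k : ℕ) (h : n ≤ k), Computable fun (t : Fin k → ℕ) (l : Fin n) => t (Fin.castLE h l)

/-- JOB MCODE (the identification of `M` with `M ⊔ M ⊔ (M × M \ R)`).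

Proof. Put `ι b := p z b`; for `y = p a b` put `sh y := p (s a) b` (an injection whose range is the
complement of the range of `ι`: `p` is bijective and every `a` is `z` or a successor, not both). On
triples `x = p (p a b) c` put `θ x := p (p a b) (s c)` if `¬ R a b` and `θ x := x` if `R a b`; then `θ` is
injective and its range is the complement of `{p (p a b) z : ¬ R a b}`. Put `κ x := sh (θ x)`,
`ν a b := sh (p (p a b) z)`. All graphs are defined by formulas in `π`, `σ`, `ζ` and the formula `Rf`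
of `R` (existential quantifiers, `Formula.relabel`). -/
def S_MCODE : Prop :=
  ∀ (L : FirstOrder.Language.{0, 0}) (π : L.Formula (Fin 3)) (σ : L.Formula (Fin 2))
    (ζ : L.Formula (Fin 1)) (Rf : L.Formula (Fin 2)),
    ∃ (Fi Fk : L.Formula (Fin 2)) (Fn : L.Formula (Fin 3)),
      ∀ (M : Type) [L.Structure M] (p : M → M → M) (s : M → M) (z : M) (R : M → M → Prop),
        PSZ π σ ζ M p s z → (∀ v : Fin 2 → M, Rf.Realize v ↔ R (v 0) (v 1)) →
        ∃ (ι κ : M → M) (ν : M → M → M), Good3 R ι κ ν ∧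
          (∀ v : Fin 2 → M, Fi.Realize v ↔ ι (v 0) = v 1) ∧
          (∀ v : Fin 2 → M, Fk.Realize v ↔ κ (v 0) = v 1) ∧
          ∀ v : Fin 3 → M, Fn.Realize v ↔ ν (v 0) (v 1) = v 2

/-- JOB MREL (the coded relations are definable). Proof: write out `U3`, `K3`, `N3` with existential
quantifiers and the formulas for the graphs. -/
def S_MREL : Prop :=
  ∀ (L : FirstOrder.Language.{0, 0}) (Rf Fi Fk : L.Formula (Fin 2)) (Fn : L.Formula (Fin 3)),
    ∃ (H1 : L.Formula (Fin 1)) (H2 : L.Formula (Fin 2)) (H3 : L.Formula (Fin 3)),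
      ∀ (M : Type) [L.Structure M] (R : M → M → Prop) (ι κ : M → M) (ν : M → M → M),
        (∀ v : Fin 2 → M, Rf.Realize v ↔ R (v 0) (v 1)) →
        (∀ v : Fin 2 → M, Fi.Realize v ↔ ι (v 0) = v 1) →
        (∀ v : Fin 2 → M, Fk.Realize v ↔ κ (v 0) = v 1) →
        (∀ v : Fin 3 → M, Fn.Realize v ↔ ν (v 0) (v 1) = v 2) →
        (∀ v : Fin 1 → M, H1.Realize v ↔ U3 ι (v 0)) ∧
        (∀ v : Fin 2 → M, H2.Realize v ↔ K3 ι κ (v 0) (v 1)) ∧
        ∀ v : Fin 3 → M, H3.Realize v ↔ N3 R ι ν (v 0) (v 1) (v 2)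

/-- JOB MDEC (decoding). The copy is defined by the first relation, and `R` on the copy by
`¬ ∃ x, N(x, u 0, u 1)`: if some `x` has `N3 R ι ν x (ι a) (ι b)` then `¬ R a b` (injectivity of `ι`), and
conversely `x = ν a b`. -/
def S_MDEC : Prop :=
  ∃ (P : (Sig ar3).Formula (Fin 1)) (ρ : (Sig ar3).Formula (Fin 2)),
    ∀ (M : Type) [(Sig ar3).Structure M] (R : M → M → Prop) (ι κ : M → M) (ν : M → M → M),
      Coded3 M R ι κ ν →
      (∀ v : Fin 1 → M, P.Realize v ↔ ∃ a, v 0 = ι a) ∧
      ∀ u : Fin 2 → M, ρ.Realize (ι ∘ u) ↔ R (u 0) (u 1)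

/-- JOB MIOTA (the graph of `ι`).

Proof. `Q(x, y) := U(y) ∧ ((U(x) ∧ A(x, y)) ∨ (∃ w, K(x, w) ∧ B(w, y)) ∨
(∃ w w', N(x, w, w') ∧ C(w, w', y)))` where `U, K, N` are the three relation symbols. If `y = ι b`
and `x = ι a`: `A (ι a, ι b) ↔ ι a = b`, i.e. `ι x = y`. If `x = κ a`: `w = ι a` and
`B (ι a, ι b) ↔ κ a = b`. If `x = ν a a'` with `¬ R a a'`: `w = ι a`, `w' = ι a'` and
`C (ι a, ι a', ι b) ↔ ν a a' = b`. The three cases exclude each other (`Good3`). -/
def S_MIOTA : Prop :=
  ∀ (A B : (Sig ar3).Formula (Fin 2)) (C : (Sig ar3).Formula (Fin 3)),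
    ∃ Q : (Sig ar3).Formula (Fin 2), ∀ (M : Type) [(Sig ar3).Structure M] (R : M → M → Prop)
      (ι κ : M → M) (ν : M → M → M), Coded3 M R ι κ ν →
      (∀ u : Fin 2 → M, A.Realize (ι ∘ u) ↔ ι (u 0) = u 1) →
      (∀ u : Fin 2 → M, B.Realize (ι ∘ u) ↔ κ (u 0) = u 1) →
      (∀ u : Fin 3 → M, C.Realize (ι ∘ u) ↔ ν (u 0) (u 1) = u 2) →
      ∀ v : Fin 2 → M, Q.Realize v ↔ ι (v 0) = v 1

/-- JOB MISO. Proof: `δ (ι' a) = ι a`, `δ (κ' a) = κ a`, `δ (ν' a b) = ν a b` for `¬ R a b` is a
well-defined bijection by `Good3`. -/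
def S_MISO : Prop :=
  ∀ (M : Type) (R : M → M → Prop) (ι κ ι' κ' : M → M) (ν ν' : M → M → M), Good3 R ι κ ν →
    Good3 R ι' κ' ν' → ∃ δ : M ≃ M, (∀ x, U3 ι' x ↔ U3 ι (δ x)) ∧
      (∀ x y, K3 ι' κ' x y ↔ K3 ι κ (δ x) (δ y)) ∧
      ∀ x y z, N3 R ι' ν' x y z ↔ N3 R ι ν (δ x) (δ y) (δ z)

/-- JOB ENUM (enumeration of an infinite set relative to an oracle).

Proof. `V x ↔ ∃ c, R x c ∧ Ok A c`, hence `V x ↔ ∃ t : ℕ, D x t` for a relation `D` decidable in `A` (take
`t` = (stage of the enumeration of `R x c`, code of `c`); or use `REIn_iff_jump`-style normal forms).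
Let `D' x t := D x t ∧ ∀ t' < t, ¬ D x t'` (decidable in `A`, exactly one `t` for every `x` in `V`). The set
`W = {Nat.pair x t : D' x t}` is infinite and decidable in `A`; let `g n` be its `n`-th element
(`Nat.nth`) and `f n = (Nat.unpair (g n)).1`. Then `f` is a bijection from `ℕ` onto `V`. The graph
`g n = w` says `w ∈ W` and exactly `n` elements of `W` are below `w`: `∃ l : List ℕ`, `l` has length `n`,
is strictly increasing, all its members are in `W` and `< w`, and every `x < w` outside `l` is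
outside `W` (`REIn.ex`, `REIn.all_mem`, `REIn.all_lt`). So `f n = x` is enumerable in `A`; its negation is
`∃ y, y ≠ x ∧ f n = y`. -/
def S_ENUM : Prop :=
  ∀ (A : Set ℕ) (V : ℕ → Prop), REIn A V → {x | V x}.Infinite →
    ∃ f : ℕ → ℕ, Function.Injective f ∧ (∀ x, V x ↔ ∃ n, f n = x) ∧
      Dec A fun q : ℕ × ℕ => f q.1 = q.2

/-- JOB MLA (one jump less, first half). Use `S_ENUM`.

Proof. `¬ R a b` is enumerable in `A`: `¬ R a b ↔ ∃ t, D a b t` with `D` decidable in `A`, and with a
unique `t` for each such pair (least witness, see `S_ENUM`). Call `n` valid if `n = 2 ⟨⟨a, b⟩, t⟩` with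
`D a b t` (unique `t`); valid is decidable in `A`, the set `V` of invalid numbers is decidable in `A` and
infinite (it contains all odd numbers). Let `f` enumerate `V` bijectively (`S_ENUM`). Put
`ι a = 2 a`, `κ a = 2 (f a) + 1`, `ν a b = 2 n + 1` with `n` the valid number of the pair `(a, b)` if
`¬ R a b` (anything otherwise). `Good3` is clear. `U3 ι x`: `x` is even. `K3 ι κ x y`: `x` odd,
`y` even, `f (y / 2) = x / 2`. `N3 R ι ν x y z`: `x` odd, `y, z` even and `x / 2` is valid for the pair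
`(y / 2, z / 2)`. All three are decidable in `A`. -/
def S_MLA : Prop :=
  S_ENUM → ∀ (A : Set ℕ) (R : ℕ → ℕ → Prop), Co A (fun v : Fin 2 → ℕ => R (v 0) (v 1)) →
    ∃ (ι κ : ℕ → ℕ) (ν : ℕ → ℕ → ℕ), Good3 R ι κ ν ∧ Dec A (fun v : Fin 1 → ℕ => U3 ι (v 0)) ∧
      Dec A (fun v : Fin 2 → ℕ => K3 ι κ (v 0) (v 1)) ∧
      Dec A (fun v : Fin 3 → ℕ => N3 R ι ν (v 0) (v 1) (v 2))

/-- JOB MLB (one jump less, second half). Use `S_ENUM`.

Proof. `R` is decidable in `jump A`, so `¬ R` is enumerable in `jump A`, hence (normal form of sets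
enumerable in a jump) `¬ R a b ↔ ∃ y, ∀ z, E a b y z` with `E` decidable in `A`: from
`¬ R a b ↔ ∃ c, G (a, b) c ∧ Ok (jump A) c` where `G` is `REPred`; `x ∈ jump A` is enumerable in `A`
and `x ∉ jump A` is co-enumerable in `A`, so `G (a, b) c ∧ Ok (jump A) c` has the form `∃ y', ∀ z, …`
(the witnesses for the positive parts are put into `y'`). Make `y` unique: `w = ⟨y, u⟩` is the
witness if `∀ z, E a b y z`, every `y' < y` has some `z ≤ u` with `¬ E a b y' z`, and `u` is the least number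
with this property. The relation `V' a b w` (`w` is the witness) is co-enumerable in `A` and every
pair outside `R` has exactly one witness. Call `n` valid if `n = 2 ⟨⟨a, b⟩, w⟩` with `V' a b w`. The set `V` of the
invalid numbers is enumerable in `A` and infinite (odd numbers). Let `f` enumerate `V` bijectively with
a graph decidable in `A` (`S_ENUM`). Put `ι a = 2 a`, `κ a = 2 (f a) + 1`, `ν a b = 2 n + 1` with `n` the
valid number of `(a, b)`. `U3` is computable, `K3` decidable in `A`, `N3` co-enumerable in `A`. -/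
def S_MLB : Prop :=
  S_ENUM → ∀ (A : Set ℕ) (R : ℕ → ℕ → Prop),
    Dec (jump A) (fun v : Fin 2 → ℕ => R (v 0) (v 1)) →
    ∃ (ι κ : ℕ → ℕ) (ν : ℕ → ℕ → ℕ), Good3 R ι κ ν ∧ Co A (fun v : Fin 1 → ℕ => U3 ι (v 0)) ∧
      Co A (fun v : Fin 2 → ℕ => K3 ι κ (v 0) (v 1)) ∧
      Co A (fun v : Fin 3 → ℕ => N3 R ι ν (v 0) (v 1) (v 2))

/-- JOB ARCL (closure of the arithmetical predicates).

Proof. `Dec (Oj n) P` implies `Dec (Oj m) P` for `n ≤ m` (`reMono`, `Red_jump`). If `P` is decidable in
`Oj n` then `∃ y, P (x, y)` is enumerable in `Oj n`, hence decidable in `Oj (n + 1) = jump (Oj n)`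
(`REIn_iff_jump`: `S x ↔ f x ∈ jump A` with `f` computable, then `REIn.mem`, `REIn.not_mem`;
`Function.iterate_succ_apply'`). -/
def S_ARCL : Prop :=
  (∀ (α β : Type) [Primcodable α] [Primcodable β] (P : β → Prop) (f : α → β), Computable f →
    Arith P → Arith fun a => P (f a)) ∧
  (∀ (α : Type) [Primcodable α] (P : α → Prop), ComputablePred P → Arith P) ∧
  (∀ (α : Type) [Primcodable α] (P : α → Prop), Arith P → Arith fun a => ¬ P a) ∧
  (∀ (α : Type) [Primcodable α] (P Q : α → Prop), Arith P → Arith Q → Arith fun a => P a ∧ Q a) ∧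
  (∀ (α β : Type) [Primcodable α] [Primcodable β] (P : α × β → Prop), Arith P →
    Arith fun a => ∃ b, P (a, b))

/-- JOB GRAPH (arithmetic in a relational signature). Use `S_T`, `S_A`.

Proof. Signature `ar` with five symbols: graphs of `0` (unary), `1` (unary), `+` (ternary),
`·` (ternary) and `<` (binary), `r = 5`, `ar = ![1, 1, 3, 3, 2]`. `τ : Defs LA (Sig ar)`: the atomic formulas
`0 = x`, `1 = x`, `x + y = z`, `x · y = z`, `x < y`. `σ : Defs (Sig ar) LA`: the symbol itself
applied to the variables. `S_A` gives the theory `T` with `DefEq T₀ T τ σ`. Let `a` be the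
arithmetical nonstandard model. The relational structure `s` defined by `τ` in `a` has arithmetical
relations, finitely many, so all are decidable in `Oj n` for one `n` (`Dec` is monotone in `n`, see
`S_ARCL`: `reMono`, `Red_jump`); by `DefEq` it is a model of `T` with `σ.Holds`. -/
def S_GRAPH : Prop :=
  S_T → S_A → ∀ T₀ : LA.Theory, HasArithModel T₀ →
    ∃ n : ℕ, PresIn (fun _ P => Dec (Oj n) P) T₀ ![1, 1, 3, 3, 2]

/-- JOB ARF (converse: definable relations of a computable structure are arithmetical). Use `S_ARCL`.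

Proof. Let `s` be the computable structure, `a` the arithmetical structure defined by the formulas
of `d'`. By `DefEq` `a` is a model of `T₀`. Every formula of `Sig ar` with free variables in `Fin n`
defines an arithmetical subset of `Fin n → ℕ` (induction on bounded formulas: a bounded formula
`BoundedFormula (Fin n) m` is evaluated on `(Fin n → ℕ) × (Fin m → ℕ)`; all terms are variables;
`S_ARCL` for negation, conjunction (implication) and quantifiers, with the computable map
`((v, xs), x) ↦ (v, Fin.snoc xs x)`). -/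
def S_ARF : Prop :=
  S_ARCL → ∀ (T₀ : LA.Theory) (r : ℕ) (ar : Fin r → ℕ), Presentable T₀ ar → HasArithModel T₀

end Q201.AR
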