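import Pool.Agent.Q201.AR.Main
import Pool.Agent.Q201.AR.Stm2

set_option autoImplicit false
set_option linter.style.haveILetI false

/-!
Project AR, part 2: assembly.
-/

open FirstOrder FirstOrder.Language Pool.Agent.Helper227.EN

namespace Q201.AR

open Pool.Agent.Helper578.JD Pool.Agent.Helper578.JD.Oracle

theorem KC.ex_fin {K : ∀ n : ℕ, ((Fin n → ℕ) → Prop) → Prop} (hK : KC K) (n : ℕ) :
    ∀ (r : ℕ) (P : Fin r → (Fin n → ℕ) → Prop), (∀ j, K n (P j)) → K n fun v => ∃ j, P j v := by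
  intro r
  induction r with
  | zero =>
    intro P _
    have : (fun v : Fin n → ℕ => ∃ j, P j v) = fun _ => False := by
      funext v
      simp
    rw [this]
    refine hK.dec n _ ?_
    exact ⟨inferInstance, (Computable.const false).of_eq fun v => by simp⟩
  | succ r ih =>
    intro P hP
    have : (fun v : Fin n → ℕ => ∃ j, P j v) =
        fun v => P 0 v ∨ ∃ j : Fin r, P j.succ v := by
      funext v
      rw [Fin.exists_fin_succ]
    rw [this]
    exact hK.or n _ _ (hP 0) (ih _ fun j => hP _)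

/-- a presentation from a structure on `ℕ` isomorphic to the defined one -/
theorem pres_of {K : ∀ n : ℕ, ((Fin n → ℕ) → Prop) → Prop} {T₀ : LA.Theory} {r : ℕ}
    {ar : Fin r → ℕ} {T' : (Sig ar).Theory} {τ : Defs LA (Sig ar)} {σ : Defs (Sig ar) LA}
    (hT' : DefEq T₀ T' τ σ) (a : LA.Structure ℕ) (hT0 : @Theory.Model LA ℕ a T₀)
    (hns : ¬ Nonempty (@FirstOrder.Language.Equiv LA ℕ ℕ a stdStr)) (δ : ℕ ≃ ℕ)
    (b : (Sig ar).Structure ℕ)
    (hb : ∀ (n : ℕ) (R : (Sig ar).Relations n) (v : Fin n → ℕ),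
      @Structure.RelMap (Sig ar) ℕ b n R v ↔ @Formula.Realize LA ℕ a _ (τ.rel R) (δ ∘ v))
    (hK : ∀ j : Fin r, K (ar j) fun v : Fin (ar j) → ℕ =>
        @Structure.RelMap (Sig ar) ℕ b (ar j) ⟨j, rfl⟩ v) : PresIn K T₀ ar := by
  let a' : LA.Structure ℕ :=
    { funMap := fun f v => δ.symm (@Structure.funMap LA ℕ a _ f (fun i => δ (v i)))
      RelMap := fun R v => @Structure.RelMap LA ℕ a _ R (fun i => δ (v i)) }
  let eqv : @FirstOrder.Language.Equiv LA ℕ ℕ a' a :=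
    @FirstOrder.Language.Equiv.mk LA ℕ ℕ a' a δ
      (fun f v => δ.apply_symm_apply _) (fun R v => Iff.rfl)
  have hT0' : @Theory.Model LA ℕ a' T₀ :=
    iso_theory a a' (@FirstOrder.Language.Equiv.symm LA ℕ ℕ a' a eqv) T₀ hT0
  have hτ : @Defs.Holds LA (Sig ar) τ ℕ a' b := by
    refine @Defs.Holds.mk LA (Sig ar) τ ℕ a' b (fun f => Empty.elim f) (fun R v => ?_)
    have h1 : @Formula.Realize LA ℕ a' _ (τ.rel R) v ↔
        @Formula.Realize LA ℕ a _ (τ.rel R) (δ ∘ v) := iso_formula a' a eqv _ v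
    rw [h1]
    exact (hb _ R v).symm
  have h2 : @Theory.Model (Sig ar) ℕ b T' ∧ @Defs.Holds (Sig ar) LA σ ℕ b a' := by
    letI := a'
    letI := b
    exact (hT'.2.2 ℕ).1 ⟨hT0', hτ⟩
  refine ⟨T', τ, σ, hT', b, a', h2.1, hK, h2.2, ?_⟩
  rintro ⟨e⟩
  exact hns ⟨@FirstOrder.Language.Equiv.comp LA ℕ ℕ a a' ℕ stdStr e
    (@FirstOrder.Language.Equiv.symm LA ℕ ℕ a' a eqv)⟩

section
variable (hT : S_T) (hE : S_E) (hA : S_A) (hP : S_PAIR) (hS : S_SUCC) (hC : S_CODE) (hRR : S_RR)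
  (hDP : S_DP) (hDC : S_DC) (hDPR : S_DPR) (hDS : S_DS) (hREL : S_REL) (hIO : S_IOTA)
  (hB : S_BACK) (hPAD : S_PADK) (hCOMP : S_COMPB) (hISO : S_ISO)

include hT hE hA hP hS hC hRR hDP hDC hDPR hDS hREL hIO hB hPAD hCOMP hISO

theorem main_in {K : ∀ n : ℕ, ((Fin n → ℕ) → Prop) → Prop} (hK : KC K) (T₀ : LA.Theory)
    (hPA : PA ⊆ T₀) {r : ℕ} (ar : Fin r → ℕ) (h : PresIn K T₀ ar) :
    PresIn K T₀ (fun _ : Fin 1 => 2) := by
  classical
  obtain ⟨T, d, d', hde, s, a, hsT, hsc, had, hns⟩ := h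
  obtain ⟨π, hπ⟩ := hP
  obtain ⟨σ0, ζ, hσζ⟩ := hS
  obtain ⟨k, hk, hle⟩ : ∃ k : ℕ, 0 < k ∧ ∀ j, ar j ≤ k :=
    ⟨(∑ j, ar j) + 1, Nat.succ_pos _, fun j =>
      (Finset.single_le_sum (fun _ _ => Nat.zero_le _) (Finset.mem_univ j)).trans (Nat.le_succ _)⟩
  obtain ⟨F, G, hFG⟩ := hC LA π σ0 ζ k (k + r) hk
  obtain ⟨H, hH⟩ := hRR LA k r hk F G
    (fun j => (d.rel (⟨j, rfl⟩ : {i : Fin r // ar i = ar j})).relabel (Fin.castLE (hle j)))
  choose A0 hA0 using fun (φ : LA.Formula (Fin 2)) => hT (Sig ar) LA d' (Fin 2) φ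
  choose B0 hB0 using fun (φ : LA.Formula (Fin (k + 1))) => hT (Sig ar) LA d' (Fin (k + 1)) φ
  obtain ⟨P, hPr⟩ := hDP k r
  choose! C hCr using hDC hDP k r
  choose Pr hPrr using hDPR hDP hDC k r
  choose ρ hρ using fun j => hREL hDP hDC hDPR hDS k r j (ar j) (hle j)
  choose E hEr using fun (n : ℕ) (φ : (Sig ar).Formula (Fin n)) => hE r ar LR P ρ (Fin n) φ
  obtain ⟨Q, hQ⟩ := hIO LR k (k + r) hk P C Pr (E 2 (A0 F)) (fun i => E (k + 1) (B0 (G i)))
  choose X hX using fun (n : ℕ) (ψ : LR.Formula (Fin n)) => hB LR n Q ψ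
  let τ : Defs LA LR := bin H
  let σ : Defs LR LA :=
    { fn := fun {n} f => X (n + 1) (E (n + 1) (d'.fn f))
      rel := fun {n} R => X n (E n (d'.rel R)) }
  have hgood : ∀ (M : Type) [LA.Structure M] [Nonempty M], M ⊨ T₀ →
      ∃ (ι : M → M) (code : ℕ → (Fin k → M) → M), Good k (k + r) ι code ∧
        (∀ v : Fin 2 → M, F.Realize v ↔ ι (v 0) = v 1) ∧
        ∀ i, i < k + r → ∀ v : Fin (k + 1) → M,
          (G i).Realize v ↔ code i (fun l => v l.castSucc) = v (Fin.last k) := by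
    intro M _ _ hM
    have hM' : M ⊨ PA := hM.mono hPA
    obtain ⟨p, hp1, hp2⟩ := hπ M hM'
    obtain ⟨s, z, hs1, hs2, hs3, hs4⟩ := hσζ M hM'
    exact hFG M p s z ⟨hp1, hs1, hs2, hp2, hs3, hs4⟩
  have key : ∀ (M : Type) [LA.Structure M] [LR.Structure M] [Nonempty M], M ⊨ T₀ → τ.Holds M →
      σ.Holds M := by
    intro M _ _ _ hM hτ
    obtain ⟨ι, code, hg, hF, hG⟩ := hgood M hM
    letI : (Sig ar).Structure M := strOf d M
    have hd : d.Holds M := strOf_holds d M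
    have hd' : d'.Holds M := ((hde.2.2 M).1 ⟨hM, hd⟩).2
    let S : Fin r → (Fin k → M) → Prop := fun j t =>
      Structure.RelMap (L := Sig ar) (n := ar j) ⟨j, rfl⟩ (fun l => t (Fin.castLE (hle j) l))
    have hHM := hH M ι code S hF hG (fun j t => by
      rw [relabel_castLE]
      exact hd.rel _ _)
    have hcd : Coded k r M ι code S := by
      refine ⟨hk, hg, fun x y => ?_⟩
      have h1 := (bin_holds H M).1 hτ ![x, y]
      exact (h1.symm).trans (hHM ![x, y])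
    have hPM := hPr M ι code S hcd
    have hρM : ∀ (j : Fin r) (u : Fin (ar j) → M), (ρ j).Realize (ι ∘ u) ↔
        Structure.RelMap (L := Sig ar) (n := ar j) ⟨j, rfl⟩ u := fun j u =>
      hρ j M ι code S (fun w => Structure.RelMap (L := Sig ar) (n := ar j) ⟨j, rfl⟩ w) hcd
        (fun _ => Iff.rfl) u
    have hEM : ∀ (n : ℕ) (φ : (Sig ar).Formula (Fin n)) (u : Fin n → M),
        (E n φ).Realize (ι ∘ u) ↔ φ.Realize u := fun n φ u =>
      hEr n φ M ι hg.inj hPM hρM u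
    have hQM := hQ M ι code hg hPM (fun i hi => hCr i hi M ι code S hcd)
      (fun l => hPrr l M ι code S hcd)
      (fun u => by rw [hEM, hA0 F M hd', hF])
      (fun i hi u => by rw [hEM, hB0 (G i) M hd', hG i hi])
    refine ⟨fun {n} f v y => ?_, fun {n} R v => ?_⟩
    · change (X (n + 1) (E (n + 1) (d'.fn f))).Realize (app v y) ↔ _
      rw [hX (n + 1) _ M ι hQM, hEM]
      exact hd'.fn f v y
    · change (X n (E n (d'.rel R))).Realize v ↔ _
      rw [hX n _ M ι hQM, hEM]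
      exact hd'.rel R v
  obtain ⟨T', hT'⟩ := hA hT LA LR (fun n => inferInstanceAs (IsEmpty Empty)) T₀ τ σ key
  have h0 : @Theory.Model LA ℕ a T₀ ∧ @Defs.Holds LA (Sig ar) d ℕ a s := by
    letI := a
    letI := s
    exact (hde.2.2 ℕ).2 ⟨hsT, had⟩
  obtain ⟨hT0, hd0⟩ := h0
  let S : Fin r → (Fin k → ℕ) → Prop := fun j t =>
    @Structure.RelMap (Sig ar) ℕ s (ar j) ⟨j, rfl⟩ (fun l => t (Fin.castLE (hle j) l))
  have hSK : ∀ j, K k (S j) := fun j => hK.comp k (ar j) _ _ (hPAD (ar j) k (hle j)) (hsc j)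
  obtain ⟨ι', code', C1, C2, f, hg', hC1, hC2, hf, hiff⟩ := hCOMP k r hk
  have hcomp : K 2 fun v : Fin 2 → ℕ => RR k r S ι' code' (v 0) (v 1) := by
    have e : (fun v : Fin 2 → ℕ => RR k r S ι' code' (v 0) (v 1)) =
        fun v => C1 v ∨ ∃ j, C2 j v ∧ S j (f v) := by
      funext v
      exact propext (hiff S v)
    rw [e]
    refine hK.or 2 _ _ (hK.dec 2 _ hC1) (hK.ex_fin 2 r _ fun j => ?_)
    exact hK.and 2 _ _ (hK.dec 2 _ (hC2 j)) (hK.comp 2 k f _ hf (hSK j))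
  obtain ⟨ι, code, hg, hF, hG⟩ := @hgood ℕ a _ hT0
  have hHM := @hH ℕ a ι code S hF hG (fun j t => by
    rw [relabel_castLE]
    exact hd0.rel _ _)
  obtain ⟨δ, hδ⟩ := hISO ℕ k r ι ι' code code' S hg hg'
  let b : LR.Structure ℕ :=
    { funMap := fun f => Empty.elim f
      RelMap := fun {n} R v => RR k r S ι' code' (v ((show 2 = n from R.2) ▸ 0))
        (v ((show 2 = n from R.2) ▸ 1)) }
  refine pres_of hT' a hT0 hns δ b ?_ ?_
  · rintro n ⟨j, hj⟩ v
    have h0 : j = 0 := Subsingleton.elim _ _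
    subst h0
    have hj' : 2 = n := hj
    subst hj'
    change RR k r S ι' code' (v 0) (v 1) ↔ @Formula.Realize LA ℕ a _ H (δ ∘ v)
    rw [hHM]
    exact hδ (v 0) (v 1)
  · intro j
    have : j = 0 := Subsingleton.elim _ _
    subst this
    exact hcomp

end

end Q201.AR
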