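import Pool.Agent.Q201.AR.Main2

set_option autoImplicit false
set_option linter.style.haveILetI false

/-!
Project AR, part 2: assembly of the Marker step.
-/

open FirstOrder FirstOrder.Language Pool.Agent.Helper227.EN

namespace Q201.AR

open Pool.Agent.Helper578.JD Pool.Agent.Helper578.JD.Oracle

/-- three formulas -/
def tr3 {L : FirstOrder.Language.{0, 0}} (H1 : L.Formula (Fin 1)) (H2 : L.Formula (Fin 2))
    (H3 : L.Formula (Fin 3)) : ∀ j : Fin 3, L.Formula (Fin (ar3 j))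
  | ⟨0, _⟩ => H1
  | ⟨1, _⟩ => H2
  | ⟨2, _⟩ => H3

/-- explicit definitions of three relation symbols -/
def tri {L : FirstOrder.Language.{0, 0}} (H1 : L.Formula (Fin 1)) (H2 : L.Formula (Fin 2))
    (H3 : L.Formula (Fin 3)) : Defs L (Sig ar3) where
  fn := fun f => Empty.elim f
  rel := fun {n} R => (show ar3 R.1 = n from R.2) ▸ tr3 H1 H2 H3 R.1

theorem vec1 {M : Type} (v : Fin 1 → M) : (![v 0] : Fin 1 → M) = v := by
  funext i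
  fin_cases i
  rfl

theorem vec2 {M : Type} (v : Fin 2 → M) : (![v 0, v 1] : Fin 2 → M) = v := by
  funext i
  fin_cases i <;> rfl

theorem vec3 {M : Type} (v : Fin 3 → M) : (![v 0, v 1, v 2] : Fin 3 → M) = v := by
  funext i
  fin_cases i <;> rfl

theorem tri_holds {L : FirstOrder.Language.{0, 0}} (H1 : L.Formula (Fin 1))
    (H2 : L.Formula (Fin 2)) (H3 : L.Formula (Fin 3)) (M : Type)
    [L.Structure M] [(Sig ar3).Structure M] (h : (tri H1 H2 H3).Holds M) :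
    (∀ v : Fin 1 → M, H1.Realize v ↔ r1 (v 0)) ∧ (∀ v : Fin 2 → M, H2.Realize v ↔ r2 (v 0) (v 1)) ∧
      ∀ v : Fin 3 → M, H3.Realize v ↔ r3 (v 0) (v 1) (v 2) := by
  refine ⟨fun v => ?_, fun v => ?_, fun v => ?_⟩
  · unfold r1
    rw [vec1]
    exact h.rel (⟨0, rfl⟩ : {j : Fin 3 // ar3 j = 1}) v
  · unfold r2
    rw [vec2]
    exact h.rel (⟨1, rfl⟩ : {j : Fin 3 // ar3 j = 2}) v
  · unfold r3
    rw [vec3]
    exact h.rel (⟨2, rfl⟩ : {j : Fin 3 // ar3 j = 3}) v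

/-- three relations -/
def rel3 (U : ℕ → Prop) (K : ℕ → ℕ → Prop) (N : ℕ → ℕ → ℕ → Prop) :
    ∀ j : Fin 3, (Fin (ar3 j) → ℕ) → Prop
  | ⟨0, _⟩, w => U (w (0 : Fin 1))
  | ⟨1, _⟩, w => K (w (0 : Fin 2)) (w (1 : Fin 2))
  | ⟨2, _⟩, w => N (w (0 : Fin 3)) (w (1 : Fin 3)) (w (2 : Fin 3))

section
variable (hT : S_T) (hE : S_E) (hA : S_A) (hP : S_PAIR) (hS : S_SUCC) (hB : S_BACK)
  (hMC : S_MCODE) (hMR : S_MREL) (hMD : S_MDEC) (hMI : S_MIOTA) (hMO : S_MISO)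

include hT hE hA hP hS hB hMC hMR hMD hMI hMO

theorem mark_of {K K' : ∀ n : ℕ, ((Fin n → ℕ) → Prop) → Prop}
    (hL : ∀ R : ℕ → ℕ → Prop, K 2 (fun v => R (v 0) (v 1)) →
      ∃ (ι κ : ℕ → ℕ) (ν : ℕ → ℕ → ℕ), Good3 R ι κ ν ∧ K' 1 (fun v => U3 ι (v 0)) ∧
        K' 2 (fun v => K3 ι κ (v 0) (v 1)) ∧ K' 3 (fun v => N3 R ι ν (v 0) (v 1) (v 2)))
    (T₀ : LA.Theory) (hPA : PA ⊆ T₀) (h : PresIn K T₀ (fun _ : Fin 1 => 2)) :
    PresIn K' T₀ ar3 := by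
  classical
  obtain ⟨T, d, d', hde, s, a, hsT, hsc, had, hns⟩ := h
  obtain ⟨π, hπ⟩ := hP
  obtain ⟨σ0, ζ, hσζ⟩ := hS
  obtain ⟨Fi, Fk, Fn, hFG⟩ := hMC LA π σ0 ζ (d.rel (⟨0, rfl⟩ : {j : Fin 1 // 2 = 2}))
  obtain ⟨H1, H2, H3, hH⟩ := hMR LA (d.rel (⟨0, rfl⟩ : {j : Fin 1 // 2 = 2})) Fi Fk Fn
  choose A0 hA0 using fun (n : ℕ) (φ : LA.Formula (Fin n)) => hT LR LA d' (Fin n) φ
  obtain ⟨P, ρ, hPρ⟩ := hMD
  choose E hEr using fun (n : ℕ) (φ : LR.Formula (Fin n)) =>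
    hE 1 (fun _ : Fin 1 => 2) (Sig ar3) P (fun _ => ρ) (Fin n) φ
  obtain ⟨Q, hQ⟩ := hMI (E 2 (A0 2 Fi)) (E 2 (A0 2 Fk)) (E 3 (A0 3 Fn))
  choose X hX using fun (n : ℕ) (ψ : (Sig ar3).Formula (Fin n)) => hB (Sig ar3) n Q ψ
  let τ : Defs LA (Sig ar3) := tri H1 H2 H3
  let σ : Defs (Sig ar3) LA :=
    { fn := fun {n} f => X (n + 1) (E (n + 1) (d'.fn f))
      rel := fun {n} R => X n (E n (d'.rel R)) }
  have hgood : ∀ (M : Type) [LA.Structure M] [Nonempty M] (R : M → M → Prop), M ⊨ T₀ →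
      (∀ v : Fin 2 → M, (d.rel (⟨0, rfl⟩ : {j : Fin 1 // 2 = 2})).Realize v ↔ R (v 0) (v 1)) →
      ∃ (ι κ : M → M) (ν : M → M → M), Good3 R ι κ ν ∧
        (∀ v : Fin 2 → M, Fi.Realize v ↔ ι (v 0) = v 1) ∧
        (∀ v : Fin 2 → M, Fk.Realize v ↔ κ (v 0) = v 1) ∧
        ∀ v : Fin 3 → M, Fn.Realize v ↔ ν (v 0) (v 1) = v 2 := by
    intro M _ _ R hM hR
    have hM' : M ⊨ PA := hM.mono hPA
    obtain ⟨p, hp1, hp2⟩ := hπ M hM'
    obtain ⟨s, z, hs1, hs2, hs3, hs4⟩ := hσζ M hM'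
    exact hFG M p s z R ⟨hp1, hs1, hs2, hp2, hs3, hs4⟩ hR
  have key : ∀ (M : Type) [LA.Structure M] [(Sig ar3).Structure M] [Nonempty M], M ⊨ T₀ →
      τ.Holds M → σ.Holds M := by
    intro M _ _ _ hM hτ
    letI : LR.Structure M := strOf d M
    have hd : d.Holds M := strOf_holds d M
    have hd' : d'.Holds M := ((hde.2.2 M).1 ⟨hM, hd⟩).2
    let R : M → M → Prop := fun x y => rr x y
    have hR : ∀ v : Fin 2 → M,
        (d.rel (⟨0, rfl⟩ : {j : Fin 1 // 2 = 2})).Realize v ↔ R (v 0) (v 1) := by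
      intro v
      change _ ↔ Structure.RelMap (L := LR) (n := 2) ⟨0, rfl⟩ ![v 0, v 1]
      rw [vec2]
      exact hd.rel (⟨0, rfl⟩ : {j : Fin 1 // 2 = 2}) v
    obtain ⟨ι, κ, ν, hg, hFi, hFk, hFn⟩ := hgood M R hM hR
    obtain ⟨h1, h2, h3⟩ := hH M R ι κ ν hR hFi hFk hFn
    obtain ⟨t1, t2, t3⟩ := tri_holds H1 H2 H3 M hτ
    have hcd : Coded3 M R ι κ ν := by
      refine ⟨hg, fun x => ?_, fun x y => ?_, fun x y z => ?_⟩
      · exact (t1 ![x]).symm.trans (h1 ![x])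
      · exact (t2 ![x, y]).symm.trans (h2 ![x, y])
      · exact (t3 ![x, y, z]).symm.trans (h3 ![x, y, z])
    obtain ⟨hPM, hρM⟩ := hPρ M R ι κ ν hcd
    have hρM' : ∀ (j : Fin 1) (u : Fin 2 → M), ρ.Realize (ι ∘ u) ↔
        Structure.RelMap (L := LR) (n := 2) ⟨j, rfl⟩ u := by
      intro j u
      have hj : j = 0 := Subsingleton.elim _ _
      subst hj
      rw [hρM u]
      change Structure.RelMap (L := LR) (n := 2) ⟨0, rfl⟩ ![u 0, u 1] ↔ _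
      rw [vec2]
    have hEM : ∀ (n : ℕ) (φ : LR.Formula (Fin n)) (u : Fin n → M),
        (E n φ).Realize (ι ∘ u) ↔ φ.Realize u := fun n φ u =>
      hEr n φ M ι hg.iinj hPM hρM' u
    have hQM := hQ M R ι κ ν hcd
      (fun u => by rw [hEM, hA0 2 Fi M hd', hFi])
      (fun u => by rw [hEM, hA0 2 Fk M hd', hFk])
      (fun u => by rw [hEM, hA0 3 Fn M hd', hFn])
    refine ⟨fun {n} f v y => ?_, fun {n} R v => ?_⟩
    · change (X (n + 1) (E (n + 1) (d'.fn f))).Realize (app v y) ↔ _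
      rw [hX (n + 1) _ M ι hQM, hEM]
      exact hd'.fn f v y
    · change (X n (E n (d'.rel R))).Realize v ↔ _
      rw [hX n _ M ι hQM, hEM]
      exact hd'.rel R v
  obtain ⟨T', hT'⟩ := hA hT LA (Sig ar3) (fun n => inferInstanceAs (IsEmpty Empty)) T₀ τ σ key
  have h0 : @Theory.Model LA ℕ a T₀ ∧ @Defs.Holds LA LR d ℕ a s := by
    letI := a
    letI := s
    exact (hde.2.2 ℕ).2 ⟨hsT, had⟩
  obtain ⟨hT0, hd0⟩ := h0
  let R : ℕ → ℕ → Prop := fun x y => @Structure.RelMap LR ℕ s 2 ⟨0, rfl⟩ ![x, y]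
  have hRK : K 2 (fun v => R (v 0) (v 1)) := by
    have e : (fun v : Fin 2 → ℕ => R (v 0) (v 1)) =
        fun v => @Structure.RelMap LR ℕ s 2 ⟨0, rfl⟩ v := by
      funext v
      change @Structure.RelMap LR ℕ s 2 ⟨0, rfl⟩ ![v 0, v 1] = _
      rw [vec2]
    rw [e]
    exact hsc 0
  have hR : ∀ v : Fin 2 → ℕ, @Formula.Realize LA ℕ a _
      (d.rel (⟨0, rfl⟩ : {j : Fin 1 // 2 = 2})) v ↔ R (v 0) (v 1) := by
    intro v
    change _ ↔ @Structure.RelMap LR ℕ s 2 ⟨0, rfl⟩ ![v 0, v 1]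
    rw [vec2]
    exact hd0.rel (⟨0, rfl⟩ : {j : Fin 1 // 2 = 2}) v
  obtain ⟨ι', κ', ν', hg', hU, hK, hN⟩ := hL R hRK
  obtain ⟨ι, κ, ν, hg, hFi, hFk, hFn⟩ := @hgood ℕ a _ R hT0 hR
  obtain ⟨h1, h2, h3⟩ := @hH ℕ a R ι κ ν hR hFi hFk hFn
  obtain ⟨δ, hδ1, hδ2, hδ3⟩ := hMO ℕ R ι κ ι' κ' ν ν' hg hg'
  let b : (Sig ar3).Structure ℕ :=
    { funMap := fun f => Empty.elim f
      RelMap := fun {n} S v => rel3 (U3 ι') (K3 ι' κ') (N3 R ι' ν') S.1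
        (fun i => v (Fin.cast S.2 i)) }
  refine pres_of hT' a hT0 hns δ b ?_ ?_
  · rintro n ⟨j, hj⟩ v
    match j, hj with
    | ⟨0, _⟩, hj =>
      have hj' : 1 = n := hj
      subst hj'
      change U3 ι' (v 0) ↔ @Formula.Realize LA ℕ a _ H1 (δ ∘ v)
      rw [h1]
      exact hδ1 (v 0)
    | ⟨1, _⟩, hj =>
      have hj' : 2 = n := hj
      subst hj'
      change K3 ι' κ' (v 0) (v 1) ↔ @Formula.Realize LA ℕ a _ H2 (δ ∘ v)
      rw [h2]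
      exact hδ2 (v 0) (v 1)
    | ⟨2, _⟩, hj =>
      have hj' : 3 = n := hj
      subst hj'
      change N3 R ι' ν' (v 0) (v 1) (v 2) ↔ @Formula.Realize LA ℕ a _ H3 (δ ∘ v)
      rw [h3]
      exact hδ3 (v 0) (v 1) (v 2)
  · intro j
    match j with
    | ⟨0, _⟩ => exact hU
    | ⟨1, _⟩ => exact hK
    | ⟨2, _⟩ => exact hN

end

end Q201.AR
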