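import Pool.Agent.Q201.AR.Def

set_option autoImplicit false

/-!
Project AR (MP_f714b8_lc): statements of the lemmas. Definitions: `Pool.Agent.Q201.AR.Def`.
-/

open FirstOrder FirstOrder.Language Pool.Agent.Helper227.EN

namespace Q201.AR

/-- JOB T (elimination of the symbols of `L'` by explicit definitions). Every `L'`-formula has an
`L`-formula with the same meaning in all structures in which the `L'`-structure is defined by `d`.

Proof. First terms: for every `t : L'.Term β` there is `g : L.Formula (β ⊕ Unit)` (or any similar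
index type) with `g.Realize (Sum.elim w (fun _ => y)) ↔ t.realize w = y` in all `M` with `d.Holds M`.
Induction on `t`: a variable gives an equality; for `func f ts` take
`∃ x : Fin n → M, (∀ l, g_l(w, x l)) ∧ (d.fn f).Realize (app x y)`, written with
`Formula.iExs (Fin n)`, `Formula.iInf` (or a finite conjunction) and `Formula.relabel`.
Then prove the statement for `φ : L'.BoundedFormula α n` by induction on `φ` in the form
`∃ ψ : L.BoundedFormula α n, ∀ M …, ∀ v xs, ψ.Realize v xs ↔ φ.Realize v xs`: `falsum`, `imp`, `all`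
are immediate; `equal t₁ t₂`: `∃ y, g₁(·, y) ∧ g₂(·, y)`; `rel R ts`:
`∃ x : Fin m → M, (∀ l, g_l(·, x l)) ∧ (d.rel R).Realize x`. (A `Formula (α ⊕ Fin n)` becomes a
`BoundedFormula α n` by `BoundedFormula.relabel id`, lemma `realize_relabel`.) -/
def S_T : Prop :=
  ∀ (L L' : FirstOrder.Language.{0, 0}) (d : Defs L L') (α : Type) (φ : L'.Formula α),
    ∃ ψ : L.Formula α, ∀ (M : Type) [L.Structure M] [L'.Structure M], d.Holds M →
      ∀ v : α → M, ψ.Realize v ↔ φ.Realize v

/-- JOB E (relativisation to a copy). If a copy `ι : M → M` of the relational structure `M` is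
defined inside the `L`-structure `M` (domain `P`, relations `ρ j`), then every formula of the
relational signature can be expressed on the copy.

Proof. Induction on `φ : (Sig ar).BoundedFormula α n` in the form `∃ ψ : L.BoundedFormula α n,
∀ M … , ∀ (u : α → M) (xs : Fin n → M), ψ.Realize (ι ∘ u) (ι ∘ xs) ↔ φ.Realize u xs`.
All terms are variables (the signature has no function symbols). `equal`: equality of the two
variables, `ι` is injective. `rel ⟨j, rfl⟩ ts`: the formula `ρ j` relabelled. `imp`: clear.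
`all φ`: `∀ x, P x → ψ`, since `P` defines the range of `ι`. -/
def S_E : Prop :=
  ∀ (r : ℕ) (ar : Fin r → ℕ) (L : FirstOrder.Language.{0, 0}) (P : L.Formula (Fin 1))
    (ρ : ∀ j : Fin r, L.Formula (Fin (ar j))) (α : Type) (φ : (Sig ar).Formula α),
    ∃ ψ : L.Formula α, ∀ (M : Type) [(Sig ar).Structure M] [L.Structure M] (ι : M → M),
      Function.Injective ι → (∀ v : Fin 1 → M, P.Realize v ↔ ∃ a, v 0 = ι a) →
      (∀ (j : Fin r) (u : Fin (ar j) → M), (ρ j).Realize (ι ∘ u) ↔
        Structure.RelMap (L := Sig ar) (n := ar j) ⟨j, rfl⟩ u) →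
      ∀ u : α → M, ψ.Realize (ι ∘ u) ↔ φ.Realize u

/-- JOB A (existence of the theory). `L'` has no function symbols; `τ` defines the symbols of `L'` in
the models of `T₀` and `σ` defines the symbols of `L` back. Then some `L'`-theory is definitionally
equivalent to `T₀`. Use JOB T as a hypothesis.

Proof. `T' := {θ | ∀ (M : Type) [L.Structure M] [L'.Structure M] [Nonempty M], M ⊨ T₀ → τ.Holds M →
M ⊨ θ}`. (1) `τ.Over T₀`: there are no function symbols. (2) `σ.Over T'`: for a function symbol `f`
of arity `n` the sentence `∀ v ∃! y, (σ.fn f)(v, y)` (written with `Formula.iAlls`, `iExs`) belongs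
to `T'`, because `σ.Holds M` for all the `M` above. (3) Let `N` carry both structures. If `N ⊨ T₀`
and `τ.Holds N` then `N ⊨ T'` by definition and `σ.Holds N` by hypothesis. Conversely let
`N ⊨ T'` and `σ.Holds N`. For `θ ∈ T₀` let `θ'` be the `L'`-sentence given by `S_T` for
`σ : Defs L' L`: in all structures with `σ.Holds` it is equivalent to `θ`. So `θ' ∈ T'`, `N ⊨ θ'`,
`N ⊨ θ`. For a relation symbol `R` of `L'` let `χ` be the `L'`-formula given by `S_T` for
`σ` and `τ.rel R`; the sentence `∀ v, χ(v) ↔ R(v)` belongs to `T'`, so it holds in `N`, and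
`τ.Holds N`. -/
def S_A : Prop :=
  S_T → ∀ (L L' : FirstOrder.Language.{0, 0}) (_ : ∀ n, IsEmpty (L'.Functions n)) (T₀ : L.Theory)
    (τ : Defs L L') (σ : Defs L' L),
    (∀ (M : Type) [L.Structure M] [L'.Structure M] [Nonempty M], M ⊨ T₀ → τ.Holds M → σ.Holds M) →
    ∃ T' : L'.Theory, DefEq T₀ T' τ σ

/-- JOB PAIR (Cantor's pairing in models of `PA`; `PA` and `LA` are those of
`Pool.Agent.Helper227.EN.Lang`).

Proof. A model of `PA` is a commutative semiring with a compatible linear order, canonically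
ordered, with no element strictly between `0` and `1`: `exists_alg` in
`Pool.Agent.Helper227.EN.Alg` (starting files, import it); induction for all formulas with
parameters: `realize_indAx` in `Pool.Agent.Helper227.EN.Lang`. Formula `π`:
`(x + y) * (x + y + 1) + y + y = z + z`. For all `x, y` there is exactly one such `z`: by induction on
`s` some `t` satisfies `t + t = s * (s + 1)` (then `z = t + y`); `z + z = z' + z'` implies `z = z'`.
Surjectivity: induction on `z` for `∃ x y, (x + y) * (x + y + 1) + y + y = z + z`: `z = 0`: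
`x = y = 0`; step from `(x, y)`: if `x = x' + 1` take `(x', y + 1)`, if `x = 0` take `(y + 1, 0)`.
Injectivity: put `s = x + y`, `s' = x' + y'`. If `s < s'` then `s + 1 ≤ s'`, so
`s' (s' + 1) ≥ (s + 1) (s + 2) = s (s + 1) + 2 s + 2 > s (s + 1) + 2 y`; hence `s = s'`, `y = y'`,
`x = x'`. -/
def S_PAIR : Prop :=
  ∃ π : LA.Formula (Fin 3), ∀ (M : Type) [LA.Structure M] [Nonempty M], M ⊨ PA →
    ∃ p : M → M → M, (Function.Bijective fun q : M × M => p q.1 q.2) ∧
      ∀ v : Fin 3 → M, π.Realize v ↔ p (v 0) (v 1) = v 2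

/-- JOB SUCC (successor and zero in models of `PA`).

Proof. `s x = x + 1`, `z = 0`; `exists_alg` in `Pool.Agent.Helper227.EN.Alg` gives the ordered
semiring. Every `x ≠ 0` is a successor: `0 < x`, so `1 ≤ x` (field `disc` of `Compat`) and `x = 1 + y`
by canonical ordering. Formulas: `x + 1 = y` and `x = 0`. -/
def S_SUCC : Prop :=
  ∃ (σ : LA.Formula (Fin 2)) (ζ : LA.Formula (Fin 1)), ∀ (M : Type) [LA.Structure M] [Nonempty M],
    M ⊨ PA → ∃ (s : M → M) (z : M), Function.Injective s ∧ (∀ x, x ≠ z ↔ ∃ y, s y = x) ∧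
      (∀ v : Fin 2 → M, σ.Realize v ↔ s (v 0) = v 1) ∧ ∀ v : Fin 1 → M, ζ.Realize v ↔ v 0 = z

/-- JOB CODE (the identification of `M` with `M ⊔ {0, …, c - 1} × M ^ k`).

Proof. Iterated pairing: bijections `pk m : (Fin (m + 1) → M) → M`, `pk 0 t = t 0`,
`pk (m + 1) t = p (t 0) (pk m (Fin.tail t))`, with formulas `Pk m : L.Formula (Fin (m + 2))` for the
graph (recursion on `m`, existential quantifier, `Formula.relabel`). Write `k = m + 1` and
`num i = s^[i] z`. Put `code i t := p (num i) (pk m t)` and `ι x := p (s^[c] a) b` where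
`x = p a b` (the inverse of `p`). The graph of `s^[i]` and the elements `num i` are defined by
formulas (recursion on `i`). `Good`: injectivity from the injectivity of `p`, `pk`, `s`;
`num i ≠ s^[c] a` and `num i ≠ num i'` for `i ≠ i'`, `i, i' < c` because `s` is injective and
`z` is not a successor; surjectivity: every `x` is `p a b`, and `a` is either `num i` with `i < c`
or `s^[c] a'` (induction on `c`, every `a ≠ z` is a successor). Formulas: `F(x, y)`:
`∃ a b a', p a b = x ∧ s^[c] a = a' ∧ p a' b = y`; `G i (t, y)`: `∃ a b, a = num i ∧ pk t = b ∧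
p a b = y`. -/
def S_CODE : Prop :=
  ∀ (L : FirstOrder.Language.{0, 0}) (π : L.Formula (Fin 3)) (σ : L.Formula (Fin 2))
    (ζ : L.Formula (Fin 1)) (k c : ℕ), 0 < k →
    ∃ (F : L.Formula (Fin 2)) (G : ℕ → L.Formula (Fin (k + 1))),
      ∀ (M : Type) [L.Structure M] (p : M → M → M) (s : M → M) (z : M), PSZ π σ ζ M p s z →
        ∃ (ι : M → M) (code : ℕ → (Fin k → M) → M), Good k c ι code ∧
          (∀ v : Fin 2 → M, F.Realize v ↔ ι (v 0) = v 1) ∧
          ∀ i, i < c → ∀ v : Fin (k + 1) → M,
            (G i).Realize v ↔ code i (fun l => v l.castSucc) = v (Fin.last k)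

/-- JOB RR (the coded relation is definable).

Proof. `RR` is a finite disjunction (over `i < k + r`, over `j : Fin r`) of formulas
`∃ t : Fin k → M, …` in the graphs of `ι`, `code i` and the relations `S j`; use
`Formula.iExs (Fin k)` (or `iExs` over a sum type) and finite disjunctions (`Formula.iSup` over
`Fin`). -/
def S_RR : Prop :=
  ∀ (L : FirstOrder.Language.{0, 0}) (k r : ℕ), 0 < k → ∀ (F : L.Formula (Fin 2))
    (G : ℕ → L.Formula (Fin (k + 1))) (Sf : Fin r → L.Formula (Fin k)),
    ∃ H : L.Formula (Fin 2), ∀ (M : Type) [L.Structure M] (ι : M → M)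
      (code : ℕ → (Fin k → M) → M) (S : Fin r → (Fin k → M) → Prop),
      (∀ v : Fin 2 → M, F.Realize v ↔ ι (v 0) = v 1) →
      (∀ i, i < k + r → ∀ v : Fin (k + 1) → M,
        (G i).Realize v ↔ code i (fun l => v l.castSucc) = v (Fin.last k)) →
      (∀ (j : Fin r) (t : Fin k → M), (Sf j).Realize t ↔ S j t) →
      ∀ v : Fin 2 → M, H.Realize v ↔ RR k r S ι code (v 0) (v 1)

/-- The hypothesis of the decoding lemmas: `M` has a good coding and the binary relation of the
`LR`-structure is the coded relation. -/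
structure Coded (k r : ℕ) (M : Type) [LR.Structure M] (ι : M → M)
    (code : ℕ → (Fin k → M) → M) (S : Fin r → (Fin k → M) → Prop) : Prop where
  kpos : 0 < k
  good : Good k (k + r) ι code
  rel : ∀ x y : M, rr x y ↔ RR k r S ι code x y

/-- JOB DP (decoding 1): the copy is the set of the elements without successors.

Proof. `x = ι a` has no `y` with `rr x y` (all three clauses of `RR` need `x = code i t`, and
`Good.disj`); `x = code i t` with `i < k + r` has the successor `ι (t l)`, `l = min i (k - 1)`.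
Formula: `∀ y, ¬ R(x, y)`. -/
def S_DP : Prop :=
  ∀ k r : ℕ, ∃ P : LR.Formula (Fin 1), ∀ (M : Type) [LR.Structure M] (ι : M → M)
    (code : ℕ → (Fin k → M) → M) (S : Fin r → (Fin k → M) → Prop), Coded k r M ι code S →
    ∀ v : Fin 1 → M, P.Realize v ↔ ∃ a, v 0 = ι a

/-- JOB DC (decoding 2): the `i`-th element of a chain and its first element.

Proof (with the formula `P` of `S_DP`, put `New x := ¬ P x`, i.e. `x = code i t` for some
`i < k + r`). `Next x y := New x ∧ New y ∧ x ≠ y ∧ R(x, y)` holds iff `x = code i t`,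
`y = code (i + 1) t` with `i + 1 < k + r`. `Init x := New x ∧ ∀ y, ¬ Next y x` holds iff
`x = code 0 t`. Recursion on `i`: `C 0 (x, z)`: `Init x ∧ x = z`;
`C (i + 1) (x, z)`: `∃ y, C i (y, z) ∧ Next y x`. -/
def S_DC : Prop :=
  S_DP → ∀ k r : ℕ, ∀ i, i < k + r → ∃ C : LR.Formula (Fin 2), ∀ (M : Type) [LR.Structure M]
    (ι : M → M) (code : ℕ → (Fin k → M) → M) (S : Fin r → (Fin k → M) → Prop),
    Coded k r M ι code S →
    ∀ v : Fin 2 → M, C.Realize v ↔ ∃ t, v 0 = code i t ∧ v 1 = code 0 t

/-- JOB DPR (decoding 3): the coordinates.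

Proof. `∃ y, C l (y, z) ∧ P(a) ∧ R(y, a)` with `C` of `S_DC` (`l < k`): `y = code l t`,
`z = code 0 t`, `a = ι b`, and `R (code l t, ι b)` iff `b = t l` (second clause of `RR`, `min l (k - 1) = l`;
injectivity of the code). -/
def S_DPR : Prop :=
  S_DP → S_DC → ∀ (k r : ℕ) (l : Fin k), ∃ C : LR.Formula (Fin 2), ∀ (M : Type) [LR.Structure M]
    (ι : M → M) (code : ℕ → (Fin k → M) → M) (S : Fin r → (Fin k → M) → Prop),
    Coded k r M ι code S →
    ∀ v : Fin 2 → M, C.Realize v ↔ ∃ t, v 0 = code 0 t ∧ v 1 = ι (t l)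

/-- JOB DS (decoding 4): the relations.

Proof. `∃ y, C (k + j) (y, z) ∧ R(y, y)` with `C` of `S_DC`: `y = code (k + j) t`, `z = code 0 t`, and
`R (code (k + j) t, code (k + j) t)` iff `S j t` (only the third clause of `RR` is possible). -/
def S_DS : Prop :=
  S_DC → ∀ (k r : ℕ) (j : Fin r), ∃ C : LR.Formula (Fin 1), ∀ (M : Type) [LR.Structure M]
    (ι : M → M) (code : ℕ → (Fin k → M) → M) (S : Fin r → (Fin k → M) → Prop),
    Coded k r M ι code S →
    ∀ v : Fin 1 → M, C.Realize v ↔ ∃ t, v 0 = code 0 t ∧ S j t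

/-- JOB REL (decoding 5): a relation which only depends on the first `n` coordinates, on the copy.

Proof. `∃ z, (∀ l : Fin n, Proj_l (z, v l)) ∧ Sat_j z` with the formulas of `S_DPR`, `S_DS`: if
`v = ι ∘ u`, this says that some `t : Fin k → M` with `t (Fin.castLE h l) = u l` for all `l`
satisfies `S j t`, that is `Q u` (a `t` with prescribed first `n` coordinates exists, `M` is nonempty
because of `k > 0` and the given element `code 0 t`, or by `Nonempty M`). -/
def S_REL : Prop :=
  S_DP → S_DC → S_DPR → S_DS → ∀ (k r : ℕ) (j : Fin r) (n : ℕ) (h : n ≤ k),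
    ∃ ρ : LR.Formula (Fin n), ∀ (M : Type) [LR.Structure M] [Nonempty M] (ι : M → M)
      (code : ℕ → (Fin k → M) → M) (S : Fin r → (Fin k → M) → Prop) (Q : (Fin n → M) → Prop),
      Coded k r M ι code S → (∀ t, S j t ↔ Q fun l => t (Fin.castLE h l)) →
      ∀ u : Fin n → M, ρ.Realize (ι ∘ u) ↔ Q u

/-- JOB IOTA (the map `ι` is definable from its restriction to the copy and the chains).

Proof. `Q(x, y) := P(y) ∧ ((P(x) ∧ A(x, y)) ∨ ⋁_{i < c} ∃ z, ∃ w : Fin k → M, C i (x, z) ∧
(∀ l, Pr l (z, w l)) ∧ B i (w, y))`. If `y = ι b` and `x = ι a`: `A(ι a, ι b) ↔ ι a = b`, that is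
`ι x = y` (injectivity of `ι`). If `y = ι b` and `x = code i t`: `z = code 0 t`, `w = ι ∘ t` and
`B i (ι ∘ t, ι b) ↔ code i t = b`, that is `ι x = y`. Both cases exclude each other and cover
everything (`Good`). -/
def S_IOTA : Prop :=
  ∀ (L : FirstOrder.Language.{0, 0}) (k c : ℕ), 0 < k → ∀ (P : L.Formula (Fin 1))
    (C : ℕ → L.Formula (Fin 2)) (Pr : Fin k → L.Formula (Fin 2)) (A : L.Formula (Fin 2))
    (B : ℕ → L.Formula (Fin (k + 1))),
    ∃ Q : L.Formula (Fin 2), ∀ (M : Type) [L.Structure M] (ι : M → M)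
      (code : ℕ → (Fin k → M) → M), Good k c ι code →
      (∀ v : Fin 1 → M, P.Realize v ↔ ∃ a, v 0 = ι a) →
      (∀ i, i < c → ∀ v : Fin 2 → M, (C i).Realize v ↔ ∃ t, v 0 = code i t ∧ v 1 = code 0 t) →
      (∀ (l : Fin k) (v : Fin 2 → M), (Pr l).Realize v ↔ ∃ t, v 0 = code 0 t ∧ v 1 = ι (t l)) →
      (∀ u : Fin 2 → M, A.Realize (ι ∘ u) ↔ ι (u 0) = u 1) →
      (∀ i, i < c → ∀ u : Fin (k + 1) → M,
        (B i).Realize (ι ∘ u) ↔ code i (fun l => u l.castSucc) = u (Fin.last k)) →
      ∀ v : Fin 2 → M, Q.Realize v ↔ ι (v 0) = v 1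

/-- JOB BACK. Proof: `∃ w : Fin n → M, (∀ l, Q (u l, w l)) ∧ ψ w` (`Formula.iExs (Fin n)`,
`Formula.iInf` or a finite conjunction, `Formula.relabel`). -/
def S_BACK : Prop :=
  ∀ (L : FirstOrder.Language.{0, 0}) (n : ℕ) (Q : L.Formula (Fin 2)) (ψ : L.Formula (Fin n)),
    ∃ χ : L.Formula (Fin n), ∀ (M : Type) [L.Structure M] (ι : M → M),
      (∀ v : Fin 2 → M, Q.Realize v ↔ ι (v 0) = v 1) →
      ∀ u : Fin n → M, χ.Realize u ↔ ψ.Realize (ι ∘ u)

/-- JOB PAD. Proof: the map `t ↦ fun l => t (Fin.castLE h l)` from `Fin k → ℕ` to `Fin n → ℕ` is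
computable (even primitive recursive), e.g. by `Computable.vector_ofFn`/`Primrec.fin_curry` and the
evaluation maps `Primrec.fin_app`. -/
def S_PAD : Prop :=
  ∀ (n k : ℕ) (h : n ≤ k) (P : (Fin n → ℕ) → Prop), ComputablePred P →
    ComputablePred fun t : Fin k → ℕ => P fun l => t (Fin.castLE h l)

/-- JOB COMP (a computable copy of the coded structure over computable relations on `ℕ`).

Proof. Let `k = m + 1` and let `e : (Fin k → ℕ) ≃ ℕ` be the iterated pairing of Mathlib's
`Nat.pair` (`e_0 t = t 0`, `e_(m+1) t = Nat.pair (t 0) (e_m (Fin.tail t))`); `e` and `e.symm` are primitive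
recursive. Put `c = k + r`, `ι a = (c + 1) a` and `code i t = (c + 1) (e t) + i + 1` for `i < c`:
`Good` is division with remainder by `c + 1`. For numbers `x, y` with remainders `rx, ry` and
quotients `qx, qy` the relation `RR` says: `rx ≠ 0` and one of
(1) `ry = rx + 1`, `qy = qx`; (2) `ry = 0`, `qy = (e.symm qx) (min (rx - 1) (k - 1))`;
(3) `y = x`, `rx - 1 = k + j` for some `j : Fin r` with `S j (e.symm qx)`.
Each is a computable condition (finite disjunctions over `j : Fin r` and over the value of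
`min (rx - 1) (k - 1) : Fin k`). -/
def S_COMP : Prop :=
  ∀ (k r : ℕ), 0 < k → ∀ S : Fin r → (Fin k → ℕ) → Prop, (∀ j, ComputablePred (S j)) →
    ∃ (ι : ℕ → ℕ) (code : ℕ → (Fin k → ℕ) → ℕ), Good k (k + r) ι code ∧
      ComputablePred fun v : Fin 2 → ℕ => RR k r S ι code (v 0) (v 1)

/-- JOB ISO (two good codings are isomorphic). Proof: `δ (ι' a) = ι a`, `δ (code' i t) = code i t`
is a well-defined bijection by `Good`; the three clauses of `RR` are carried to each other. -/
def S_ISO : Prop :=
  ∀ (M : Type) (k r : ℕ) (ι ι' : M → M) (code code' : ℕ → (Fin k → M) → M)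
    (S : Fin r → (Fin k → M) → Prop), Good k (k + r) ι code → Good k (k + r) ι' code' →
    ∃ δ : M ≃ M, ∀ x y, RR k r S ι' code' x y ↔ RR k r S ι code (δ x) (δ y)

/-- JOB TERN (a ternary symbol). Use JOB T and JOB A as hypotheses.

Proof. Let `T, d, d', s, a` be the data for the binary symbol `R`. New signature `Q` ternary.
`τ : Defs LA (Sig 3)`: `Q(x, y, z)` is defined by `d.rel R` at `(x, y)`. `e : Defs (Sig 3) LR`: `R(x, y)`
is defined by `Q(x, y, y)`. `σ : Defs (Sig 3) LA`: the translations by `S_T` (for `e`) of the formulas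
of `d'`. In a model `M` of `T₀` with `τ.Holds M` give `M` the `LR`-structure defined by `d`;
then `DefEq T₀ T d d'` gives `d'.Holds M`, `e.Holds M`, hence `σ.Holds M`. `S_A` gives a theory `T'` in the
signature `Q` with `DefEq T₀ T' τ σ`. Computable model: `Q(x, y, z) := R(x, y)` on `ℕ`; by `DefEq` (for
`T`) the arithmetical structure `a` is a model of `T₀` with `d.Holds`, so `τ.Holds`, so (by `DefEq` for
`T'`) it is a model of `T'` with `σ.Holds`. -/
def S_TERN : Prop :=
  S_T → S_A → ∀ T₀ : LA.Theory, Presentable T₀ (fun _ : Fin 1 => 2) →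
    Presentable T₀ (fun _ : Fin 1 => 3)

end Q201.AR
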