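import Pool.Agent.Q201.AR.Main3
import Pool.Agent.Q214.AR.T
import Pool.Agent.Q182.AR_E
import Pool.Agent.Q71.AR_A
import Pool.Agent.Q214.AR.Pair
import Pool.Agent.Q123.AR_SUCC
import Pool.Agent.Q265.AR_CODE
import Pool.Agent.Q217.AR.RR
import Pool.Agent.Q160.AR_DP
import Pool.Agent.Q160.AR_DC
import Pool.Agent.Q256.AR.DPR
import Pool.Agent.Q164.AR_DS
import Pool.Agent.Q110.AR_REL
import Pool.Agent.Q110.AR_IOTA
import Pool.Agent.Q153.AR_BACK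
import Pool.Agent.Q79.AR_PAD
import Pool.Agent.Q91.AR.Comp
import Pool.Agent.Q188.AR_ISO
import Pool.Agent.Q58.AR_TERN
import Pool.Agent.Q25.AR_KDEC
import Pool.Agent.Q182.AR_COMPB
import Pool.Agent.Q220.AR_PADK
import Pool.Agent.Q231.AR.MCODE
import Pool.Agent.Q285.AR_MREL
import Pool.Agent.Q53.AR.Mdec
import Pool.Agent.Q109.AR_MIOTA
import Pool.Agent.Q65.AR_MISO
import Pool.Agent.Q149.AR_ENUM
import Pool.Agent.Q254.AR.MLA
import Pool.Agent.Q53.AR.Mlb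
import Pool.Agent.Q259.AR_ARCL
import Pool.Agent.Q187.AR_GRAPH
import Pool.Agent.Q71.AR_ARF

set_option autoImplicit false

/-!
Project AR, parts 1 and 2: the criterion.
-/

open FirstOrder FirstOrder.Language Pool.Agent.Helper227.EN

namespace Q201.AR

open Pool.Agent.Helper578.JD Pool.Agent.Helper578.JD.Oracle

theorem u_T : S_T := Pool.Agent.Q214.AR.t_T
theorem u_E : S_E := Q182.AR_E.t_E
theorem u_A : S_A := Pool.Agent.Q71.AR_A.t_A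
theorem u_PAIR : S_PAIR := Pool.Agent.Q214.AR.t_PAIR
theorem u_SUCC : S_SUCC := Q123.AR_SUCC.t_SUCC
theorem u_CODE : S_CODE := Q265.AR_CODE.t_CODE
theorem u_RR : S_RR := Q217.AR.t_RR
theorem u_DP : S_DP := Q160.AR.DP.t_DP
theorem u_DC : S_DC := Q160.AR.DC.t_DC
theorem u_DPR : S_DPR := Pool.Agent.Q256.AR.DPR.t_DPR
theorem u_DS : S_DS := Pool.Agent.Q164.AR.t_DS
theorem u_REL : S_REL := Pool.Agent.Q110.AR_REL.t_REL
theorem u_IOTA : S_IOTA := Pool.Agent.Q110.AR_IOTA.t_IOTA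
theorem u_BACK : S_BACK := Pool.Agent.Q153.AR.t_BACK
theorem u_PAD : S_PAD := Q79.AR_PAD.t_PAD
theorem u_COMP : S_COMP := Pool.Agent.Q91.AR.CompJob.t_COMP
theorem u_ISO : S_ISO := Q188.AR.t_ISO
theorem u_TERN : S_TERN := Q58.AR_TERN.t_TERN
theorem u_KDEC : S_KDEC := Pool.Agent.Q25.AR_KDEC.t_KDEC
theorem u_COMPB : S_COMPB := Q182.AR_COMPB.t_COMPB
theorem u_PADK : S_PADK := Q220.AR_PADK.t_PADK
theorem u_MCODE : S_MCODE := Pool.Agent.Q231.AR.MCODE.t_MCODE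
theorem u_MREL : S_MREL := Pool.Agent.Q285.AR.t_MREL
theorem u_MDEC : S_MDEC := Pool.Agent.Q53.AR.t_MDEC
theorem u_MIOTA : S_MIOTA := Pool.Agent.Q109.AR_MIOTA.t_MIOTA
theorem u_MISO : S_MISO := Q65.AR.t_MISO
theorem u_ENUM : S_ENUM := Pool.Agent.Q149.AR.t_ENUM
theorem u_MLA : S_MLA := Pool.Agent.Q254.AR.t_MLA
theorem u_MLB : S_MLB := Pool.Agent.Q53.AR.t_MLB
theorem u_ARCL : S_ARCL := Q259.AR_ARCL.t_ARCL
theorem u_GRAPH : S_GRAPH := Q201.AR.GRAPH187.t_GRAPH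
theorem u_ARF : S_ARF := Pool.Agent.Q71.AR_ARF.t_ARF

theorem to_bin {K : ∀ n : ℕ, ((Fin n → ℕ) → Prop) → Prop} (hK : KC K) (T₀ : LA.Theory)
    (hPA : PA ⊆ T₀) {r : ℕ} (ar : Fin r → ℕ) (h : PresIn K T₀ ar) :
    PresIn K T₀ (fun _ : Fin 1 => 2) :=
  main_in u_T u_E u_A u_PAIR u_SUCC u_CODE u_RR u_DP u_DC u_DPR u_DS u_REL u_IOTA u_BACK u_PADK
    u_COMPB u_ISO hK T₀ hPA ar h

theorem step_b (A : Set ℕ) (T₀ : LA.Theory) (hPA : PA ⊆ T₀)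
    (h : PresIn (fun _ P => Dec (jump A) P) T₀ (fun _ : Fin 1 => 2)) :
    PresIn (fun _ P => Co A P) T₀ ar3 :=
  mark_of u_T u_E u_A u_PAIR u_SUCC u_BACK u_MCODE u_MREL u_MDEC u_MIOTA u_MISO
    (fun R hR => u_MLB u_ENUM A R hR) T₀ hPA h

theorem step_a (A : Set ℕ) (T₀ : LA.Theory) (hPA : PA ⊆ T₀)
    (h : PresIn (fun _ P => Co A P) T₀ (fun _ : Fin 1 => 2)) :
    PresIn (fun _ P => Dec A P) T₀ ar3 :=
  mark_of u_T u_E u_A u_PAIR u_SUCC u_BACK u_MCODE u_MREL u_MDEC u_MIOTA u_MISO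
    (fun R hR => u_MLA u_ENUM A R hR) T₀ hPA h

theorem down (T₀ : LA.Theory) (hPA : PA ⊆ T₀) (n : ℕ) :
    PresIn (fun _ P => Dec (Oj n) P) T₀ (fun _ : Fin 1 => 2) →
      PresIn (fun _ P => Dec (Oj 0) P) T₀ (fun _ : Fin 1 => 2) := by
  induction n with
  | zero => exact id
  | succ n ih =>
    intro h
    have hj : Oj (n + 1) = jump (Oj n) := Function.iterate_succ_apply' _ _ _
    rw [hj] at h
    exact ih (to_bin (u_KDEC.1 _) T₀ hPA ar3 (step_a _ T₀ hPA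
      (to_bin (u_KDEC.2.1 _) T₀ hPA ar3 (step_b _ T₀ hPA h))))

theorem pres_zero (T₀ : LA.Theory) {r : ℕ} (ar : Fin r → ℕ) :
    PresIn (fun _ P => Dec (Oj 0) P) T₀ ar → Presentable T₀ ar := by
  rintro ⟨T, d, d', hde, s, a, hsT, hsc, had, hns⟩
  exact ⟨T, d, d', hde, s, a, hsT, fun j => (u_KDEC.2.2 _ _).1 (hsc j), had, hns⟩

theorem presentable_of_arith (T₀ : LA.Theory) (hPA : PA ⊆ T₀) (h : HasArithModel T₀) :
    Presentable T₀ (fun _ : Fin 1 => 2) := by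
  obtain ⟨n, hn⟩ := u_GRAPH u_T u_A T₀ h
  exact pres_zero T₀ _ (down T₀ hPA n (to_bin (u_KDEC.1 _) T₀ hPA _ hn))

theorem arith_of_presentable (T₀ : LA.Theory) {r : ℕ} (ar : Fin r → ℕ)
    (h : Presentable T₀ ar) : HasArithModel T₀ :=
  u_ARF u_ARCL T₀ r ar h

theorem ternary_of (T₀ : LA.Theory) (h : Presentable T₀ (fun _ : Fin 1 => 2)) :
    Presentable T₀ (fun _ : Fin 1 => 3) := u_TERN u_T u_A T₀ h

end Q201.AR
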