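import Pool.Agent.Q201.AR.Stm3

set_option autoImplicit false

/-!
Project AR, part 3: assembly (arithmetical nonstandard models).
-/

open FirstOrder FirstOrder.Language Pool.Agent.Helper227.EN

namespace Q201.AR

open Pool.Agent.Helper578.JD Pool.Agent.Helper578.JD.Oracle

theorem real0 (s : LA.Structure ℕ) (σ : LA.Sentence) (v : Empty → ℕ) (xs : Fin 0 → ℕ) :
    @BoundedFormula.Realize LA ℕ s Empty 0 σ v xs ↔ @Sentence.Realize LA ℕ s σ := by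
  have h : ∀ (v v' : Empty → ℕ) (xs xs' : Fin 0 → ℕ),
      @BoundedFormula.Realize LA ℕ s Empty 0 σ v xs ↔
        @BoundedFormula.Realize LA ℕ s Empty 0 σ v' xs' := by
    intro v v' xs xs'
    rw [Subsingleton.elim v v', Subsingleton.elim xs xs']
  exact h _ _ _ _

theorem nm_map (f : ℕ → ℕ) (c i : ℕ) (hi : i ≤ c) :
    nm ((List.range (c + 1)).map f) i = f i := by
  unfold nm
  rw [List.getD_eq_getElem?_getD, List.getElem?_map, List.getElem?_range (by omega)]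
  rfl

theorem nm_single (i : ℕ) : nm [0] i = 0 := by
  unfold nm
  cases i with
  | zero => rfl
  | succ i => rfl

theorem arith_model (hARCL : S_ARCL) (hENUM : S_ENUM) (hKL : S_KL) (hCPT : S_CPT)
    (hFAR : S_FAR) (hDM : S_DM) (hQ : S_QUOT) (hRE : S_REIDX) (hTRN : S_TRN) (hIS : S_ISOSAT)
    (hCOMP : S_COMPILE) (hDEC : S_DECOMP) (hVAR : S_VARB) (hIND : S_IND) (hPA : S_PAAX)
    (hINF : S_INF) (hNUM : S_NUM) (hNS : S_NS) (hB0A : S_B0A) (hB0T : S_B0T) (hLVA : S_LVA)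
    (hLVT : S_LVT) (hCD : S_CD) (hCP : S_CP) (hSTD : S_STDPA) (n : ℕ) :
    HasArithModel (PAPi n) := by
  classical
  obtain ⟨Ax₀, hAx₀, hPAx⟩ := hPA hCOMP hDEC hVAR hIND hARCL
  have hLv := hLVA hARCL hB0A hCPT
  obtain ⟨P, hP, hPt⟩ := hLVT hARCL hCPT hB0T hLv n
  obtain ⟨c1, c2, c3, c4, c5⟩ := hARCL
  let Ax : ℕ → Prop := fun c => Ax₀ c ∨ ∃ c', (Lv n c' ∧ ¬ ∃ l, P (c', l)) ∧ c = cneg c'
  have hAx : Arith Ax := by
    have e1 : Arith fun c' : ℕ => ¬ ∃ l, P (c', l) := c3 _ _ (c5 ℕ (List ℕ) P hP)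
    have e2 : Arith fun c' : ℕ => Lv n c' ∧ ¬ ∃ l, P (c', l) := c4 _ _ _ (hLv n) e1
    have e3 : Arith fun q : ℕ × ℕ => Lv n q.2 ∧ ¬ ∃ l, P (q.2, l) :=
      c1 (ℕ × ℕ) ℕ _ (fun q => q.2) Computable.snd e2
    have e4 : Arith fun q : ℕ × ℕ => q.1 = cneg q.2 := by
      refine c2 _ _ ?_
      have h1 : Computable fun q : ℕ × ℕ => cneg q.2 :=
        hCPT.2.2.2.2.2.2.1.comp (Computable.pair Computable.snd Computable.snd)
      refine ⟨inferInstance, ?_⟩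
      exact ((Primrec.eq (α := ℕ)).decide.to_comp).comp Computable.fst h1
    have e5 : Arith fun q : ℕ × ℕ => (Lv n q.2 ∧ ¬ ∃ l, P (q.2, l)) ∧ q.1 = cneg q.2 :=
      c4 _ _ _ e3 e4
    have e6 : Arith fun c : ℕ => ∃ c', (Lv n c' ∧ ¬ ∃ l, P (c', l)) ∧ c = cneg c' := c5 ℕ ℕ _ e5
    have e7 : Arith fun c : ℕ => ¬ (¬ Ax₀ c ∧
        ¬ ∃ c', (Lv n c' ∧ ¬ ∃ l, P (c', l)) ∧ c = cneg c') :=
      c3 _ _ (c4 _ _ _ (c3 _ _ hAx₀) (c3 _ _ e6))
    have e8 : Ax = fun c : ℕ => ¬ (¬ Ax₀ c ∧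
        ¬ ∃ c', (Lv n c' ∧ ¬ ∃ l, P (c', l)) ∧ c = cneg c') := by
      funext c
      exact propext ⟨fun h h' => h.elim h'.1 h'.2, fun h => by
        by_contra h'
        exact h ⟨fun h1 => h' (Or.inl h1), fun h1 => h' (Or.inr h1)⟩⟩
    rw [e8]
    exact e7
  -- the axioms are true in the standard model
  have hstd : ∀ c, Ax c → ∀ e : ℕ → ℕ, @Sat ℕ stdStr c e := by
    rintro c (hc | ⟨c', ⟨hc1, hc2⟩, rfl⟩) e
    · exact (@hPAx ℕ stdStr _).2 hSTD c hc e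
    · refine (@Sat_cneg ℕ stdStr e c').2 fun h => ?_
      refine hc2 ⟨(List.range (c' + 1)).map e, (hPt c' _ hc1).2 ?_⟩
      refine (@hVAR c' ℕ stdStr _ e fun i hi => ?_).2 h
      exact nm_map e c' i hi
  obtain ⟨M, sM, ξ, hM, hξ⟩ := hNS hDEC hNUM
  obtain ⟨D₀, hD₀⟩ := hDM Ax M ξ (fun c hc => hM c (hstd c hc)) hξ
  obtain ⟨D, hD, hDA⟩ := hKL ⟨c1, c2, c3, c4, c5⟩ (Fb Ax)
    (hFAR ⟨c1, c2, c3, c4, c5⟩ hCPT Ax hAx) ⟨D₀, hD₀⟩
  obtain ⟨N, sN, g, hg, hDN⟩ := hQ Ax D hD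
  have hNe : Nonempty N := ⟨g 0⟩
  have hNAx : ∀ c, Ax c → ∀ e : ℕ → N, Sat N c e := by
    intro c hc e
    choose f hf using fun i => hg (e i)
    have h1 : D (pos c ((List.range (c + 1)).map f)) = true := by
      obtain ⟨q, hq, hq'⟩ := hD _ (Fb.ax c ((List.range (c + 1)).map f) hc)
      rw [List.mem_singleton] at hq
      subst hq
      simpa using hq'
    have h2 := (hDN c _).1 h1
    refine (hVAR c N _ e fun i hi => ?_).1 h2
    rw [nm_map f c i hi, hf]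
  have hNPA : N ⊨ PA := (hPAx N).1 fun c hc => hNAx c (Or.inl hc)
  have : Infinite N := hINF N hNPA
  obtain ⟨h, hbij, hh⟩ := hRE ⟨c1, c2, c3, c4, c5⟩ hENUM hCPT D N g ⟨hg, hDN⟩ hDA
  obtain ⟨a, ⟨θ⟩, hfun, hrel⟩ := hTRN ⟨c1, c2, c3, c4, c5⟩ hCPT D N g h ⟨hg, hDN⟩ hDA hbij hh
  have haAx : ∀ c, Ax c → ∀ e : ℕ → ℕ, @Sat ℕ a c e := fun c hc e =>
    (hIS ℕ N a sN θ c e).1 (hNAx c hc _)
  have haPA : @Theory.Model LA ℕ a PA := (@hPAx ℕ a _).1 fun c hc => haAx c (Or.inl hc)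
  refine ⟨a, ?_, hfun, hrel, ?_⟩
  · refine @Theory.Model.mk LA ℕ a (PAPi n) ?_
    rintro σ (hσ | ⟨hσ1, hσ2⟩)
    · exact @Theory.Model.realize_of_mem LA ℕ a PA haPA σ hσ
    · obtain ⟨c, hc, hcM⟩ := (hCP hCD n 0 σ).2 hσ1
      have hmin : PAminus ⊆ PA := by
        intro x hx
        exact Or.inl hx
      have hstdm : @Theory.Model LA ℕ stdStr PAminus := by
        let _ := stdStr
        exact Theory.Model.mono (M := ℕ) hSTD hmin
      have ham : @Theory.Model LA ℕ a PAminus := by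
        let _ := a
        exact Theory.Model.mono (M := ℕ) haPA hmin
      have h1 : Ax (cneg c) := by
        refine Or.inr ⟨c, ⟨hc, ?_⟩, rfl⟩
        rintro ⟨l, hl⟩
        have h2 := (hPt c l hc).1 hl
        have h3 : @Sat ℕ stdStr (cneg c) (nm l) := by
          exact (@hcM ℕ stdStr _ hstdm (nm l)).2 ((real0 stdStr σ _ _).2 hσ2)
        exact (@Sat_cneg ℕ stdStr (nm l) c).1 h3 h2
      exact (real0 a σ _ _).1 ((@hcM ℕ a _ ham (fun i => i)).1 (haAx _ h1 _))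
  · rintro ⟨e⟩
    obtain ⟨x₀, hx₀⟩ : ∃ x₀ : ℕ, θ x₀ = g 0 := θ.toEquiv.surjective (g 0)
    have h1 : @Sat ℕ stdStr (numc (e x₀)) (fun _ => e x₀) := (hNUM _ _).2 rfl
    have h2 : @Sat ℕ a (numc (e x₀)) (fun _ => x₀) :=
      (hIS ℕ ℕ a stdStr e (numc (e x₀)) (fun _ => x₀)).1 h1
    have h3 : Sat N (numc (e x₀)) (fun _ => θ x₀) :=
      (hIS ℕ N a sN θ (numc (e x₀)) (fun _ => x₀)).2 h2
    rw [hx₀] at h3
    obtain ⟨q, hq, hq'⟩ := hD _ (Fb.nst (Ax := Ax) (e x₀))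
    rw [List.mem_singleton] at hq
    subst hq
    refine hq' ((hDN _ _).2 ?_)
    have e1 : (fun i => g (nm [0] i)) = fun _ => g 0 := by
      funext i
      rw [nm_single]
    change Sat N (numc (e x₀)) (fun i => g (nm [0] i))
    rw [e1]
    exact h3

end Q201.AR
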