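import Pool.Agent.Q201.AR.Main4
import Pool.Agent.Q201.AR.Main5
import Pool.Agent.Q121.AR_KL
import Pool.Agent.Q214.AR.Quot
import Pool.Agent.Q201.AR.DM
import Pool.Agent.Q123.AR_REIDX
import Pool.Agent.Q39.AR_TRN
import Pool.Agent.Q208.AR_ISOSAT
import Pool.Agent.Q25.AR_COMPILE
import Pool.Agent.Q40.AR_DECOMP
import Pool.Agent.Q13.AR_VARB
import Pool.Agent.Q90.AR_PAAX
import Pool.Agent.Q18.AR_INF
import Pool.Agent.Q76.AR_NUM
import Pool.Agent.Q278.AR_NS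
import Pool.Agent.Q247.AR_B0A
import Pool.Agent.Q113.AR_B0T
import Pool.Agent.Q149.AR_LVA
import Pool.Agent.Q176.AR_LVT
import Pool.Agent.Q220.AR_CD
import Pool.Agent.Q182.AR_CP
import Pool.Agent.Q164.AR_STDPA
import Pool.Agent.Q65.AR_IND
import Pool.Agent.Q201.AR.Far
import Pool.Agent.Q201.AR.Cpt

set_option autoImplicit false

/-!
Project AR, part 3: the lemmas.
-/

open FirstOrder FirstOrder.Language Pool.Agent.Helper227.EN

namespace Q201.AR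

theorem u_KL : S_KL := Pool.Agent.Q121.AR_KL.t_KL
theorem u_QUOT : S_QUOT := Q214.AR.Quo.t_QUOT
theorem u_DM : S_DM := DMc.t_DM
theorem u_REIDX : S_REIDX := Q123.AR_REIDX.t_REIDX
theorem u_TRN : S_TRN := Pool.Agent.Q39.AR_TRN.t_TRN
theorem u_ISOSAT : S_ISOSAT := Pool.Agent.Q208.AR.t_ISOSAT
theorem u_COMPILE : S_COMPILE := Pool.Agent.Q25.AR_COMPILE.t_COMPILE
theorem u_DECOMP : S_DECOMP := Pool.Agent.Q40.ARDecomp.t_DECOMP
theorem u_VARB : S_VARB := Q13.AR.t_VARB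
theorem u_PAAX : S_PAAX := Pool.Agent.Q90.AR.t_PAAX
theorem u_INF : S_INF := Pool.Agent.Q18.AR.t_INF
theorem u_NUM : S_NUM := Pool.Agent.Q76.AR_NUM.t_NUM
theorem u_NS : S_NS := Q278.AR.t_NS
theorem u_B0A : S_B0A := Q247.AR.t_B0A
theorem u_B0T : S_B0T := Q113.AR_B0T.t_B0T
theorem u_LVA : S_LVA := Pool.Agent.Q149.ARL.t_LVA
theorem u_LVT : S_LVT := Pool.Agent.Q176.AR_LVT.t_LVT
theorem u_CD : S_CD := Q220.AR_CD.t_CD
theorem u_CP : S_CP := Q182.AR_CP.t_CP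
theorem u_STDPA : S_STDPA := Pool.Agent.Q164.AR.t_STDPA

theorem u_CPT : S_CPT := t_CPT
theorem u_FAR : S_FAR := Farc.t_FAR
theorem u_IND : S_IND := Q65.AR.t_IND

/-- Every theory `PA + Th_{Π_n}(ℕ)` has an arithmetical nonstandard model. -/
theorem arith_papi (n : ℕ) : HasArithModel (PAPi n) :=
  arith_model u_ARCL u_ENUM u_KL u_CPT u_FAR u_DM u_QUOT u_REIDX u_TRN u_ISOSAT u_COMPILE u_DECOMP
    u_VARB u_IND u_PAAX u_INF u_NUM u_NS u_B0A u_B0T u_LVA u_LVT u_CD u_CP u_STDPA n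

theorem main_papi (n : ℕ) : Presentable (PAPi n) (fun _ : Fin 1 => 2) :=
  presentable_of_arith (PAPi n) Set.subset_union_left (arith_papi n)

end Q201.AR
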